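import Pool.Agent.P.MP_e1a373_ag.Glue

/-! The cone of sl_2 conformal block divisors is not finitely generated for n at least 7. -/

namespace Pool.Agent.P.MP_e1a373_ag

open Finset

/-- test curve -/
def cU (n : ℕ) (hn : 7 ≤ n) : FCurve n := crv n hn [0, 1, 2, 3, 3, 3] (by decide)

lemma evU {n : ℕ} (hn : 7 ≤ n) (l : ℕ) (lam : Fin n → ℕ) (h : ∀ i, lam i ≤ l) :
    cbDivisor l lam (cU n hn) =
      (Q l (ext lam 0) ([ext lam 1] ++ tl lam) [ext lam 2] [ext lam 3, ext lam 4, ext lam 5] : ℕ) := by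
  unfold cU
  rw [cb_eq_Q l lam _ (ext lam 0) (ext_le h 0) (by rw [block_crv hn lam _ _ rfl]; rfl),
    block_crv hn lam _ _ rfl, block_crv hn lam _ _ rfl, block_crv hn lam _ _ rfl]
  rfl

/-- test curve -/
def cW3 (n : ℕ) (hn : 7 ≤ n) : FCurve n := crv n hn [0, 1, 1, 2, 3, 3] (by decide)

lemma evW3 {n : ℕ} (hn : 7 ≤ n) (l : ℕ) (lam : Fin n → ℕ) (h : ∀ i, lam i ≤ l) :
    cbDivisor l lam (cW3 n hn) =
      (Q l (ext lam 0) ([ext lam 1, ext lam 2] ++ tl lam) [ext lam 3] [ext lam 4, ext lam 5] : ℕ) := by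
  unfold cW3
  rw [cb_eq_Q l lam _ (ext lam 0) (ext_le h 0) (by rw [block_crv hn lam _ _ rfl]; rfl),
    block_crv hn lam _ _ rfl, block_crv hn lam _ _ rfl, block_crv hn lam _ _ rfl]
  rfl

/-- test curve -/
def cW4 (n : ℕ) (hn : 7 ≤ n) : FCurve n := crv n hn [0, 1, 1, 3, 2, 3] (by decide)

lemma evW4 {n : ℕ} (hn : 7 ≤ n) (l : ℕ) (lam : Fin n → ℕ) (h : ∀ i, lam i ≤ l) :
    cbDivisor l lam (cW4 n hn) =
      (Q l (ext lam 0) ([ext lam 1, ext lam 2] ++ tl lam) [ext lam 4] [ext lam 3, ext lam 5] : ℕ) := by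
  unfold cW4
  rw [cb_eq_Q l lam _ (ext lam 0) (ext_le h 0) (by rw [block_crv hn lam _ _ rfl]; rfl),
    block_crv hn lam _ _ rfl, block_crv hn lam _ _ rfl, block_crv hn lam _ _ rfl]
  rfl

/-- test curve -/
def cW5 (n : ℕ) (hn : 7 ≤ n) : FCurve n := crv n hn [0, 1, 1, 3, 3, 2] (by decide)

lemma evW5 {n : ℕ} (hn : 7 ≤ n) (l : ℕ) (lam : Fin n → ℕ) (h : ∀ i, lam i ≤ l) :
    cbDivisor l lam (cW5 n hn) =
      (Q l (ext lam 0) ([ext lam 1, ext lam 2] ++ tl lam) [ext lam 5] [ext lam 3, ext lam 4] : ℕ) := by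
  unfold cW5
  rw [cb_eq_Q l lam _ (ext lam 0) (ext_le h 0) (by rw [block_crv hn lam _ _ rfl]; rfl),
    block_crv hn lam _ _ rfl, block_crv hn lam _ _ rfl, block_crv hn lam _ _ rfl]
  rfl

/-- test curve -/
def cA (n : ℕ) (hn : 7 ≤ n) : FCurve n := crv n hn [0, 1, 2, 3, 2, 3] (by decide)

lemma evA {n : ℕ} (hn : 7 ≤ n) (l : ℕ) (lam : Fin n → ℕ) (h : ∀ i, lam i ≤ l) :
    cbDivisor l lam (cA n hn) =
      (Q l (ext lam 0) ([ext lam 1] ++ tl lam) [ext lam 2, ext lam 4] [ext lam 3, ext lam 5] : ℕ) := by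
  unfold cA
  rw [cb_eq_Q l lam _ (ext lam 0) (ext_le h 0) (by rw [block_crv hn lam _ _ rfl]; rfl),
    block_crv hn lam _ _ rfl, block_crv hn lam _ _ rfl, block_crv hn lam _ _ rfl]
  rfl

/-- test curve -/
def cB (n : ℕ) (hn : 7 ≤ n) : FCurve n := crv n hn [0, 2, 3, 1, 1, 1] (by decide)

lemma evB {n : ℕ} (hn : 7 ≤ n) (l : ℕ) (lam : Fin n → ℕ) (h : ∀ i, lam i ≤ l) :
    cbDivisor l lam (cB n hn) =
      (Q l (ext lam 0) ([ext lam 3, ext lam 4, ext lam 5] ++ tl lam) [ext lam 1] [ext lam 2] : ℕ) := by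
  unfold cB
  rw [cb_eq_Q l lam _ (ext lam 0) (ext_le h 0) (by rw [block_crv hn lam _ _ rfl]; rfl),
    block_crv hn lam _ _ rfl, block_crv hn lam _ _ rfl, block_crv hn lam _ _ rfl]
  rfl

/-- test curve -/
def cC (n : ℕ) (hn : 7 ≤ n) : FCurve n := crv n hn [0, 2, 3, 2, 2, 2] (by decide)

lemma evC {n : ℕ} (hn : 7 ≤ n) (l : ℕ) (lam : Fin n → ℕ) (h : ∀ i, lam i ≤ l) :
    cbDivisor l lam (cC n hn) =
      (Q l (ext lam 0) ([] ++ tl lam) [ext lam 1, ext lam 3, ext lam 4, ext lam 5] [ext lam 2] : ℕ) := by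
  unfold cC
  rw [cb_eq_Q l lam _ (ext lam 0) (ext_le h 0) (by rw [block_crv hn lam _ _ rfl]; rfl),
    block_crv hn lam _ _ rfl, block_crv hn lam _ _ rfl, block_crv hn lam _ _ rfl]
  rfl

/-- test curve -/
def cE5 (n : ℕ) (hn : 7 ≤ n) : FCurve n := crv n hn [0, 2, 2, 2, 2, 3] (by decide)

lemma evE5 {n : ℕ} (hn : 7 ≤ n) (l : ℕ) (lam : Fin n → ℕ) (h : ∀ i, lam i ≤ l) :
    cbDivisor l lam (cE5 n hn) =
      (Q l (ext lam 0) ([] ++ tl lam) [ext lam 1, ext lam 2, ext lam 3, ext lam 4] [ext lam 5] : ℕ) := by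
  unfold cE5
  rw [cb_eq_Q l lam _ (ext lam 0) (ext_le h 0) (by rw [block_crv hn lam _ _ rfl]; rfl),
    block_crv hn lam _ _ rfl, block_crv hn lam _ _ rfl, block_crv hn lam _ _ rfl]
  rfl

/-- test curve -/
def cE4 (n : ℕ) (hn : 7 ≤ n) : FCurve n := crv n hn [0, 2, 2, 2, 3, 2] (by decide)

lemma evE4 {n : ℕ} (hn : 7 ≤ n) (l : ℕ) (lam : Fin n → ℕ) (h : ∀ i, lam i ≤ l) :
    cbDivisor l lam (cE4 n hn) =
      (Q l (ext lam 0) ([] ++ tl lam) [ext lam 1, ext lam 2, ext lam 3, ext lam 5] [ext lam 4] : ℕ) := by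
  unfold cE4
  rw [cb_eq_Q l lam _ (ext lam 0) (ext_le h 0) (by rw [block_crv hn lam _ _ rfl]; rfl),
    block_crv hn lam _ _ rfl, block_crv hn lam _ _ rfl, block_crv hn lam _ _ rfl]
  rfl

/-- test curve -/
def cE3 (n : ℕ) (hn : 7 ≤ n) : FCurve n := crv n hn [0, 2, 2, 3, 2, 2] (by decide)

lemma evE3 {n : ℕ} (hn : 7 ≤ n) (l : ℕ) (lam : Fin n → ℕ) (h : ∀ i, lam i ≤ l) :
    cbDivisor l lam (cE3 n hn) =
      (Q l (ext lam 0) ([] ++ tl lam) [ext lam 1, ext lam 2, ext lam 4, ext lam 5] [ext lam 3] : ℕ) := by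
  unfold cE3
  rw [cb_eq_Q l lam _ (ext lam 0) (ext_le h 0) (by rw [block_crv hn lam _ _ rfl]; rfl),
    block_crv hn lam _ _ rfl, block_crv hn lam _ _ rfl, block_crv hn lam _ _ rfl]
  rfl

/-- test curve -/
def cF (n : ℕ) (hn : 7 ≤ n) : FCurve n := crv n hn [0, 2, 1, 2, 3, 3] (by decide)

lemma evF {n : ℕ} (hn : 7 ≤ n) (l : ℕ) (lam : Fin n → ℕ) (h : ∀ i, lam i ≤ l) :
    cbDivisor l lam (cF n hn) =
      (Q l (ext lam 0) ([ext lam 2] ++ tl lam) [ext lam 1, ext lam 3] [ext lam 4, ext lam 5] : ℕ) := by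
  unfold cF
  rw [cb_eq_Q l lam _ (ext lam 0) (ext_le h 0) (by rw [block_crv hn lam _ _ rfl]; rfl),
    block_crv hn lam _ _ rfl, block_crv hn lam _ _ rfl, block_crv hn lam _ _ rfl]
  rfl

/-- the separating linear functional -/
def psi (n : ℕ) (hn : 7 ≤ n) (e M : ℝ) (v : FCurve n → ℝ) : ℝ :=
  v (cW3 n hn) + v (cW4 n hn) + v (cW5 n hn) - (3 + e) * v (cU n hn) +
    M * (v (cA n hn) + v (cB n hn) + v (cC n hn) + v (cE5 n hn) + v (cE4 n hn) + v (cE3 n hn) +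
      v (cF n hn))

lemma psi_linear (n : ℕ) (hn : 7 ≤ n) (e M : ℝ) : IsLinearMap ℝ (psi n hn e M) := by
  constructor
  · intro v w
    simp only [psi, Pi.add_apply]
    ring
  · intro c v
    simp only [psi, Pi.smul_apply, smul_eq_mul]
    ring

lemma psi_nonneg {n : ℕ} (hn : 7 ≤ n) (l : ℕ) (lam : Fin n → ℕ) (h : ∀ i, lam i ≤ l) (B : ℝ)
    (hB : 1 ≤ B) (hu : cbDivisor l lam (cU n hn) ≤ B) :
    0 ≤ psi n hn (1 / B) (3 * B + 1) (cbDivisor l lam) := by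
  unfold psi
  rw [evU hn l lam h] at hu ⊢
  rw [evW3 hn l lam h, evW4 hn l lam h, evW5 hn l lam h, evA hn l lam h, evB hn l lam h,
    evC hn l lam h, evE5 hn l lam h, evE4 hn l lam h, evE3 hn l lam h, evF hn l lam h]
  have key := main_tail l (ext lam 0) (ext lam 1) (ext lam 2) (ext lam 3) (ext lam 4) (ext lam 5)
    (tl lam) (ext_le h 0) (ext_le h 1) (ext_le h 2) (ext_le h 3) (ext_le h 4) (ext_le h 5)
  generalize Q l (ext lam 0) ([ext lam 1] ++ tl lam) [ext lam 2]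
    [ext lam 3, ext lam 4, ext lam 5] = u at *
  generalize Q l (ext lam 0) ([ext lam 1, ext lam 2] ++ tl lam) [ext lam 3]
    [ext lam 4, ext lam 5] = w3 at *
  generalize Q l (ext lam 0) ([ext lam 1, ext lam 2] ++ tl lam) [ext lam 4]
    [ext lam 3, ext lam 5] = w4 at *
  generalize Q l (ext lam 0) ([ext lam 1, ext lam 2] ++ tl lam) [ext lam 5]
    [ext lam 3, ext lam 4] = w5 at *
  generalize Q l (ext lam 0) ([ext lam 1] ++ tl lam) [ext lam 2, ext lam 4]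
    [ext lam 3, ext lam 5] = zA at *
  generalize Q l (ext lam 0) ([ext lam 3, ext lam 4, ext lam 5] ++ tl lam) [ext lam 1]
    [ext lam 2] = zB at *
  generalize Q l (ext lam 0) ([] ++ tl lam) [ext lam 1, ext lam 3, ext lam 4, ext lam 5]
    [ext lam 2] = zC at *
  generalize Q l (ext lam 0) ([] ++ tl lam) [ext lam 1, ext lam 2, ext lam 3, ext lam 4]
    [ext lam 5] = zE5 at *
  generalize Q l (ext lam 0) ([] ++ tl lam) [ext lam 1, ext lam 2, ext lam 3, ext lam 5]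
    [ext lam 4] = zE4 at *
  generalize Q l (ext lam 0) ([] ++ tl lam) [ext lam 1, ext lam 2, ext lam 4, ext lam 5]
    [ext lam 3] = zE3 at *
  generalize Q l (ext lam 0) ([ext lam 2] ++ tl lam) [ext lam 1, ext lam 3]
    [ext lam 4, ext lam 5] = zF at *
  have hB0 : 0 < B := by linarith
  have e1 : 1 / B * (u : ℝ) ≤ 1 := by
    rw [one_div, inv_mul_le_iff₀ hB0]; linarith
  have p3 : (0 : ℝ) ≤ w3 := Nat.cast_nonneg _
  have p4 : (0 : ℝ) ≤ w4 := Nat.cast_nonneg _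
  have p5 : (0 : ℝ) ≤ w5 := Nat.cast_nonneg _
  rcases Nat.eq_zero_or_pos (zA + zB + zC + zE5 + zE4 + zE3 + zF) with hz | hz
  · have hz' : (zA : ℝ) + zB + zC + zE5 + zE4 + zE3 + zF = 0 := by exact_mod_cast hz
    rw [hz']
    by_cases hu0 : u = 0
    · subst hu0
      simp only [Nat.cast_zero, mul_zero]
      linarith
    · have k := key (by omega) (by omega) (by omega) (by omega) (by omega) (by omega) (by omega) hu0
      have k' : 3 * (u : ℝ) + 1 ≤ w3 + w4 + w5 := by exact_mod_cast k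
      linarith
  · have hz' : (1 : ℝ) ≤ (zA : ℝ) + zB + zC + zE5 + zE4 + zE3 + zF := by exact_mod_cast hz
    have : (3 * B + 1) * 1 ≤ (3 * B + 1) * ((zA : ℝ) + zB + zC + zE5 + zE4 + zE3 + zF) :=
      mul_le_mul_of_nonneg_left hz' (by linarith)
    linarith

/-- the weights of the family -/
def fam (n k : ℕ) : Fin n → ℕ := fun i =>
  [1, 4 * k + 3, 4 * k + 3, 6 * k + 4, 6 * k + 5, 6 * k + 5, 2 * k + 1].getD i.val 0

lemma fam_le (n k : ℕ) (i : Fin n) : fam n k i ≤ 8 * k + 6 := by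
  unfold fam
  obtain ⟨i, hi⟩ := i
  rcases i with _ | _ | _ | _ | _ | _ | _ | i <;> simp <;> omega

lemma ext_fam {n : ℕ} (hn : 7 ≤ n) (k j : ℕ) : ext (fam n k) j =
    [1, 4 * k + 3, 4 * k + 3, 6 * k + 4, 6 * k + 5, 6 * k + 5, 2 * k + 1].getD j 0 := by
  unfold ext
  split_ifs with h
  · rfl
  · exact (List.getD_eq_default _ _ (by simp; omega)).symm

lemma tl_fam {n : ℕ} (hn : 7 ≤ n) (k : ℕ) :
    ∃ Z : List ℕ, (∀ y ∈ Z, y = 0) ∧ tl (fam n k) = (2 * k + 1) :: Z := by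
  obtain ⟨m, hm⟩ : ∃ m, n - 6 = m + 1 := ⟨n - 7, by omega⟩
  refine ⟨(List.range m).map (fun j => ext (fam n k) (6 + (j + 1))), ?_, ?_⟩
  · intro y hy
    obtain ⟨j, _, rfl⟩ := List.mem_map.1 hy
    rw [ext_fam hn]
    exact List.getD_eq_default _ _ (by simp; omega)
  · unfold tl
    rw [hm, List.range_succ_eq_map, List.map_cons, List.map_map, ext_fam hn]
    rfl

lemma psi_fam {n : ℕ} (hn : 7 ≤ n) (k : ℕ) (e M : ℝ) (he : 0 ≤ e) :
    psi n hn e M (cbDivisor (8 * k + 6) (fam n k)) ≤ (k + 1) * (1 - e * (k + 1)) := by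
  have h := fam_le n k
  obtain ⟨Z, hZ, hT⟩ := tl_fam hn k
  unfold psi
  rw [evU hn _ _ h, evW3 hn _ _ h, evW4 hn _ _ h, evW5 hn _ _ h, evA hn _ _ h, evB hn _ _ h,
    evC hn _ _ h, evE5 hn _ _ h, evE4 hn _ _ h, evE3 hn _ _ h, evF hn _ _ h, hT]
  simp only [Q_append_zeros (8 * k + 6) _ (2 * k + 1) _ Z _ _ (by omega) hZ, ext_fam hn]
  simp only [List.getD_cons_zero, List.getD_cons_succ, List.cons_append, List.nil_append]
  obtain ⟨zA, zB, zC, zE5, zE4, zE3, zF⟩ := fam_ZF k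
  have hu := fam_U k
  have h3 := fam_W3 k
  have h4 := fam_W4 k
  rw [zA, zB, zC, zE5, zF, zE3]
  generalize Q (8 * k + 6) 1 [4 * k + 3, 2 * k + 1] [4 * k + 3]
    [6 * k + 4, 6 * k + 5, 6 * k + 5] = u at *
  generalize Q (8 * k + 6) 1 [4 * k + 3, 4 * k + 3, 2 * k + 1] [6 * k + 4]
    [6 * k + 5, 6 * k + 5] = w3 at *
  generalize Q (8 * k + 6) 1 [4 * k + 3, 4 * k + 3, 2 * k + 1] [6 * k + 5]
    [6 * k + 4, 6 * k + 5] = w4 at *
  have hu' : ((k : ℝ) + 1) * (k + 1) ≤ u := by exact_mod_cast hu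
  have h3' : (w3 : ℝ) ≤ k * (k + 1) := by exact_mod_cast h3
  have h4' : (w4 : ℝ) ≤ (k + 1) * (k + 1 + 1) := by exact_mod_cast h4
  have := mul_le_mul_of_nonneg_left hu' he
  simp only [Nat.cast_zero, add_zero, mul_zero]
  nlinarith

theorem not_fg (n : ℕ) (hn : 7 ≤ n) :
    ¬ ∃ l0 : ℕ, ∀ l : ℕ, 1 ≤ l → ∀ lam : Fin n → ℕ, (∀ i, lam i ≤ l) →
      cbDivisor l lam ∈ convexHull ℝ {v : FCurve n → ℝ | ∃ (l' : ℕ) (mu : Fin n → ℕ) (m : ℝ),
        1 ≤ l' ∧ l' ≤ l0 ∧ (∀ i, mu i ≤ l') ∧ 0 ≤ m ∧ v = m • cbDivisor l' mu} := by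
  rintro ⟨l0, H⟩
  obtain ⟨B0, hB0⟩ := ((range (l0 + 1) ×ˢ Fintype.piFinset (fun _ : Fin n => range (l0 + 1))).image
    (fun p : ℕ × (Fin n → ℕ) => cbDivisor p.1 p.2 (cU n hn))).bddAbove
  obtain ⟨k, hk⟩ := exists_nat_ge (max B0 1)
  have hB1 : (1 : ℝ) ≤ k := le_trans (le_max_right _ _) hk
  have hB : ∀ l' (mu : Fin n → ℕ), l' ≤ l0 → (∀ i, mu i ≤ l') →
      cbDivisor l' mu (cU n hn) ≤ k := by
    intro l' mu h1 h2
    refine le_trans (hB0 ?_) (le_trans (le_max_left _ _) hk)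
    refine Finset.mem_coe.2 (Finset.mem_image.2 ⟨(l', mu), ?_, rfl⟩)
    refine Finset.mem_product.2 ⟨Finset.mem_range.2 (Nat.lt_succ_of_le h1), ?_⟩
    exact Fintype.mem_piFinset.2
      (fun i => Finset.mem_range.2 (Nat.lt_succ_of_le (le_trans (h2 i) h1)))
  have hlin := psi_linear n hn (1 / k) (3 * k + 1)
  have hsub := convexHull_min (𝕜 := ℝ) (s := {v : FCurve n → ℝ | ∃ (l' : ℕ) (mu : Fin n → ℕ) (m : ℝ),
        1 ≤ l' ∧ l' ≤ l0 ∧ (∀ i, mu i ≤ l') ∧ 0 ≤ m ∧ v = m • cbDivisor l' mu})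
    (t := {v | 0 ≤ psi n hn (1 / k) (3 * k + 1) v}) (by
      rintro v ⟨l', mu, m, -, h1, h2, hm, rfl⟩
      show 0 ≤ psi n hn (1 / k) (3 * k + 1) (m • cbDivisor l' mu)
      rw [hlin.map_smul, smul_eq_mul]
      exact mul_nonneg hm (psi_nonneg hn l' mu h2 k hB1 (hB l' mu h1 h2)))
    (convex_halfSpace_ge hlin 0)
  have h1 : 0 ≤ psi n hn (1 / k) (3 * k + 1) (cbDivisor (8 * k + 6) (fam n k)) :=
    hsub (H (8 * k + 6) (by omega) (fam n k) (fam_le n k))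
  have hk0 : (0 : ℝ) < k := by linarith
  have h2 := psi_fam hn k (1 / k) (3 * k + 1) (by positivity)
  have h3 : (1 : ℝ) - 1 / k * (k + 1) < 0 := by
    have : (1 : ℝ) / k * (k + 1) = 1 + 1 / k := by field_simp
    have h4 : (0 : ℝ) < 1 / k := by positivity
    linarith
  have h4 := mul_neg_of_pos_of_neg (show (0 : ℝ) < k + 1 by linarith) h3
  linarith

end Pool.Agent.P.MP_e1a373_ag
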