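import Pool.Agent.P.MP_e1a373_ag.Defs

/-! Closed forms and supports of small ranks. -/

namespace Pool.Agent.P.MP_e1a373_ag

open Finset

lemma rank_one (l a m : ℕ) (ha : a ≤ l) : rank l [a] m = if m = a then 1 else 0 := by
  simp only [rank]
  rw [Finset.sum_eq_single 0]
  · by_cases h : m = a
    · have : Fus l a 0 m := by unfold Fus; omega
      subst h
      simp [this]
    · have : ¬ Fus l a 0 m := by unfold Fus; omega
      simp [h, this]
  · intro b _ hb
    simp [hb]
  · intro h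
    simp at h

lemma rank_two (l a b m : ℕ) (hb : b ≤ l) : rank l [a, b] m = if Fus l a b m then 1 else 0 := by
  rw [rank]
  simp only [rank_one l b _ hb]
  rw [Finset.sum_eq_single b]
  · simp
  · intro v _ hv
    simp [hv]
  · intro h
    exact absurd (Finset.mem_range.2 (by omega)) h

lemma card_parity (N lo hi : ℕ) (hp : lo % 2 = hi % 2) (hN : hi < N) :
    ((range N).filter (fun v => v % 2 = lo % 2 ∧ lo ≤ v ∧ v ≤ hi)).card = (hi + 2 - lo) / 2 := by
  rw [← Finset.card_range ((hi + 2 - lo) / 2)]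
  symm
  apply Finset.card_bij (fun j _ => lo + 2 * j)
  · intro j hj
    simp only [mem_range, mem_filter] at hj ⊢
    omega
  · intro a _ b _ h
    omega
  · intro v hv
    simp only [mem_range, mem_filter] at hv
    exact ⟨(v - lo) / 2, by simp only [mem_range]; omega, by omega⟩

lemma rank_three_card (l a b c m : ℕ) (hc : c ≤ l) : rank l [a, b, c] m =
    ((range (l + 1)).filter (fun v => Fus l a v m ∧ Fus l b c v)).card := by
  rw [rank]
  simp only [rank_two l b c _ hc]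
  rw [Finset.card_filter]
  apply Finset.sum_congr rfl
  intro v _
  by_cases h1 : Fus l a v m <;> by_cases h2 : Fus l b c v <;> simp [h1, h2]

/-- lower end of the interval of intermediate weights -/
lemma exists_lo (a b c m : ℕ) : ∃ lo, (a ≤ lo + m ∧ m ≤ lo + a ∧ b ≤ lo + c ∧ c ≤ lo + b) ∧
    (a = lo + m ∨ m = lo + a ∨ b = lo + c ∨ c = lo + b) :=
  ⟨max (max (a - m) (m - a)) (max (b - c) (c - b)), by omega, by omega⟩

/-- upper end of the interval of intermediate weights -/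
lemma exists_hi (l a b c m : ℕ) (h1 : a + m ≤ 2 * l) (h2 : b + c ≤ 2 * l) :
    ∃ hi, (hi ≤ a + m ∧ hi + a + m ≤ 2 * l ∧ hi ≤ b + c ∧ hi + b + c ≤ 2 * l) ∧
    (hi = a + m ∨ hi + a + m = 2 * l ∨ hi = b + c ∨ hi + b + c = 2 * l) :=
  ⟨min (min (a + m) (2 * l - (a + m))) (min (b + c) (2 * l - (b + c))), by omega, by omega⟩

/-- closed form of the four-point rank -/
lemma rank_three (l a b c m lo hi : ℕ) (hc : c ≤ l)
    (hp : (a + b + c + m) % 2 = 0)
    (hlo : a ≤ lo + m ∧ m ≤ lo + a ∧ b ≤ lo + c ∧ c ≤ lo + b)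
    (hlo' : a = lo + m ∨ m = lo + a ∨ b = lo + c ∨ c = lo + b)
    (hhi : hi ≤ a + m ∧ hi + a + m ≤ 2 * l ∧ hi ≤ b + c ∧ hi + b + c ≤ 2 * l)
    (hhi' : hi = a + m ∨ hi + a + m = 2 * l ∨ hi = b + c ∨ hi + b + c = 2 * l) :
    rank l [a, b, c] m = (hi + 2 - lo) / 2 := by
  have h1 : lo % 2 = (a + m) % 2 := by omega
  have h2 : hi % 2 = (a + m) % 2 := by omega
  rw [rank_three_card l a b c m hc, ← card_parity (l + 1) lo hi (by omega) (by omega)]
  congr 1
  apply Finset.filter_congr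
  intro v _
  unfold Fus
  constructor
  · rintro ⟨h3, h4⟩
    refine ⟨by omega, by omega, by omega⟩
  · rintro ⟨h3, h4, h5⟩
    clear hlo' hhi'
    omega

/-- upper bound for the four-point rank from any lower and upper bound of the interval -/
lemma rank_three_le (l a b c m lo hi : ℕ) (ha : a ≤ l) (hb : b ≤ l) (hc : c ≤ l) (hm : m ≤ l)
    (hlo : lo + m ≤ a ∨ lo + a ≤ m ∨ lo + c ≤ b ∨ lo + b ≤ c)
    (hhi : a + m ≤ hi ∨ 2 * l ≤ hi + a + m ∨ b + c ≤ hi ∨ 2 * l ≤ hi + b + c) :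
    rank l [a, b, c] m ≤ (hi + 2 - lo) / 2 := by
  rcases Nat.mod_two_eq_zero_or_one (a + b + c + m) with hp | hp
  · obtain ⟨lo', h1, h2⟩ := exists_lo a b c m
    obtain ⟨hi', h3, h4⟩ := exists_hi l a b c m (by omega) (by omega)
    rw [rank_three l a b c m lo' hi' hc hp h1 h2 h3 h4]
    have h5 : lo ≤ lo' := by omega
    have h6 : hi' ≤ hi := by omega
    clear h1 h2 h3 h4 hlo hhi
    omega
  · rw [rank_three_card l a b c m hc, Finset.card_eq_zero.2]
    · exact Nat.zero_le _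
    · rw [Finset.filter_eq_empty_iff]
      intro v _
      unfold Fus
      omega

/-- lower bound for the four-point rank from a subinterval -/
lemma le_rank_three (l a b c m lo hi : ℕ) (ha : a ≤ l) (hb : b ≤ l) (hc : c ≤ l) (hm : m ≤ l)
    (hp : (a + b + c + m) % 2 = 0)
    (hlo : a ≤ lo + m ∧ m ≤ lo + a ∧ b ≤ lo + c ∧ c ≤ lo + b)
    (hhi : hi ≤ a + m ∧ hi + a + m ≤ 2 * l ∧ hi ≤ b + c ∧ hi + b + c ≤ 2 * l) :
    (hi + 2 - lo) / 2 ≤ rank l [a, b, c] m := by
  obtain ⟨lo', h1, h2⟩ := exists_lo a b c m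
  obtain ⟨hi', h3, h4⟩ := exists_hi l a b c m (by omega) (by omega)
  rw [rank_three l a b c m lo' hi' hc hp h1 h2 h3 h4]
  have h5 : lo' ≤ lo := by omega
  have h6 : hi ≤ hi' := by omega
  clear h1 h2 h3 h4 hlo hhi
  omega

lemma rank_three_odd (l a b c m : ℕ) (hc : c ≤ l) (hp : (a + b + c + m) % 2 = 1) :
    rank l [a, b, c] m = 0 := by
  rw [rank_three_card l a b c m hc, Finset.card_eq_zero, Finset.filter_eq_empty_iff]
  intro v _
  unfold Fus
  omega

/-- the linear conditions for a nonzero four-point rank -/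
def P3 (l a b c m : ℕ) : Prop :=
  (a + b + c + m) % 2 = 0 ∧ a ≤ b + c + m ∧ b ≤ a + c + m ∧ c ≤ a + b + m ∧ m ≤ a + b + c ∧
    b + c + m ≤ 2 * l + a ∧ a + c + m ≤ 2 * l + b ∧ a + b + m ≤ 2 * l + c ∧ a + b + c ≤ 2 * l + m

lemma rank_three_ne (l a b c m : ℕ) (ha : a ≤ l) (hb : b ≤ l) (hc : c ≤ l) (hm : m ≤ l) :
    rank l [a, b, c] m ≠ 0 ↔ P3 l a b c m := by
  unfold P3
  rcases Nat.mod_two_eq_zero_or_one (a + b + c + m) with hp | hp
  · obtain ⟨lo', h1, h2⟩ := exists_lo a b c m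
    obtain ⟨hi', h3, h4⟩ := exists_hi l a b c m (by omega) (by omega)
    rw [rank_three l a b c m lo' hi' hc hp h1 h2 h3 h4]
    have h5 : lo' % 2 = hi' % 2 := by omega
    constructor
    · intro h
      have h6 : lo' ≤ hi' := by omega
      clear h2 h4 h h5
      omega
    · intro h
      have h6 : lo' ≤ hi' := by
        clear h1 h3 h5
        rcases h2 with h2 | h2 | h2 | h2 <;> rcases h4 with h4 | h4 | h4 | h4 <;> omega
      omega
  · rw [rank_three_odd l a b c m hc hp]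
    omega

/-- the linear conditions for a nonzero five-point rank -/
def P4 (l a b c d m : ℕ) : Prop :=
  (a + b + c + d + m) % 2 = 0 ∧
    a ≤ b + c + d + m ∧ b ≤ a + c + d + m ∧ c ≤ a + b + d + m ∧ d ≤ a + b + c + m ∧
    m ≤ a + b + c + d ∧
    a + b + c ≤ 2 * l + d + m ∧ a + b + d ≤ 2 * l + c + m ∧ a + c + d ≤ 2 * l + b + m ∧
    b + c + d ≤ 2 * l + a + m ∧
    a + b + m ≤ 2 * l + c + d ∧ a + c + m ≤ 2 * l + b + d ∧ a + d + m ≤ 2 * l + b + c ∧
    b + c + m ≤ 2 * l + a + d ∧ b + d + m ≤ 2 * l + a + c ∧ c + d + m ≤ 2 * l + a + b ∧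
    a + b + c + d + m ≤ 4 * l

lemma rank_cons_ne (l a : ℕ) (L : List ℕ) (m : ℕ) :
    rank l (a :: L) m ≠ 0 ↔ ∃ v, v ≤ l ∧ Fus l a v m ∧ rank l L v ≠ 0 := by
  rw [rank, Ne, Finset.sum_eq_zero_iff]
  push Not
  constructor
  · rintro ⟨v, hv, h⟩
    by_cases hf : Fus l a v m
    · exact ⟨v, by simpa [Nat.lt_succ_iff] using hv, hf, by simpa [hf] using h⟩
    · simp [hf] at h
  · rintro ⟨v, hv, hf, h⟩
    exact ⟨v, by simpa [Nat.lt_succ_iff] using hv, by simpa [hf] using h⟩

lemma rank_four_ne (l a b c d m : ℕ) (ha : a ≤ l) (hb : b ≤ l) (hc : c ≤ l) (hd : d ≤ l)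
    (hm : m ≤ l) : rank l [a, b, c, d] m ≠ 0 ↔ P4 l a b c d m := by
  rw [rank_cons_ne]
  constructor
  · rintro ⟨v, hv, hf, h⟩
    rw [rank_three_ne l b c d v hb hc hd hv] at h
    unfold Fus at hf
    unfold P3 at h
    unfold P4
    refine ⟨by omega, by omega, by omega, by omega, by omega, by omega, by omega, by omega,
      by omega, by omega, by omega, by omega, by omega, by omega, by omega, by omega, by omega⟩
  · intro h
    unfold P4 at h
    obtain ⟨v, h1, h2⟩ : ∃ v, (a ≤ v + m ∧ m ≤ v + a ∧ b ≤ v + c + d ∧ c ≤ v + b + d ∧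
        d ≤ v + b + c ∧ b + c + d ≤ v + 2 * l) ∧ (a = v + m ∨ m = v + a ∨ b = v + c + d ∨
        c = v + b + d ∨ d = v + b + c ∨ b + c + d = v + 2 * l) := by
      clear h
      obtain ⟨v1, e1, e2⟩ : ∃ v, (a ≤ v + m ∧ m ≤ v + a) ∧ (a = v + m ∨ m = v + a) :=
        ⟨max (a - m) (m - a), by omega, by omega⟩
      by_cases c1 : v1 + c + d < b
      · exact ⟨b - (c + d), by omega, by omega⟩
      by_cases c2 : v1 + b + d < c
      · exact ⟨c - (b + d), by omega, by omega⟩
      by_cases c3 : v1 + b + c < d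
      · exact ⟨d - (b + c), by omega, by omega⟩
      by_cases c4 : v1 + 2 * l < b + c + d
      · exact ⟨b + c + d - 2 * l, by omega, by omega⟩
      exact ⟨v1, by omega, by omega⟩
    have hvl : v ≤ l := by
      rcases h2 with h2 | h2 | h2 | h2 | h2 | h2 <;> omega
    refine ⟨v, hvl, ?_, ?_⟩
    · unfold Fus
      rcases h2 with h2 | h2 | h2 | h2 | h2 | h2 <;>
        refine ⟨by omega, by omega, by omega, by omega, by omega⟩
    · rw [rank_three_ne l b c d v hb hc hd hvl]
      unfold P3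
      rcases h2 with h2 | h2 | h2 | h2 | h2 | h2 <;>
        refine ⟨by omega, by omega, by omega, by omega, by omega, by omega, by omega, by omega,
          by omega⟩

lemma deg4_ne (l a b c d : ℕ) (ha : a ≤ l) (hb : b ≤ l) (hc : c ≤ l) (hd : d ≤ l) :
    deg4 l a b c d ≠ 0 ↔ 2 * l + 2 ≤ a + b + c + d ∧ P3 l b c d a := by
  unfold deg4
  rw [mul_ne_zero_iff, rank_three_ne l b c d a hb hc hd ha]
  constructor
  · rintro ⟨h1, h2⟩
    exact ⟨by omega, h2⟩
  · rintro ⟨h1, h2⟩
    exact ⟨by omega, h2⟩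

/-- gluing a tail of weights into one weight -/
lemma rank_append (l : ℕ) (L M : List ℕ) (m : ℕ) (hm : m ≤ l) :
    rank l (L ++ M) m = ∑ v ∈ range (l + 1), rank l M v * rank l (L ++ [v]) m := by
  induction L generalizing m with
  | nil =>
    simp only [List.nil_append]
    rw [Finset.sum_eq_single m]
    · rw [rank_one l m m hm]; simp
    · intro v hv hvm
      rw [rank_one l v m (by simpa [Nat.lt_succ_iff] using hv)]
      simp [Ne.symm hvm]
    · intro h
      exact absurd (Finset.mem_range.2 (by omega)) h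
  | cons a L ih =>
    simp only [List.cons_append, rank]
    simp only [Finset.mul_sum]
    rw [Finset.sum_comm]
    apply Finset.sum_congr rfl
    intro w hw
    by_cases hf : Fus l a w m
    · simp only [hf, if_true]
      exact ih w (by simpa [Nat.lt_succ_iff] using hw)
    · simp [hf]

end Pool.Agent.P.MP_e1a373_ag
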