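import Pool.Agent.P.MP_e1a373_ag.Itv

/-! Two-sided bounds for four-point ranks and for single terms of the degrees. -/

namespace Pool.Agent.P.MP_e1a373_ag

open Finset

lemma rank_two_le (l a b m : ℕ) (hb : b ≤ l) : rank l [a, b] m ≤ 1 := by
  rw [rank_two l a b m hb]
  split_ifs <;> omega

lemma rank_two_ne (l a b m : ℕ) (hb : b ≤ l) : rank l [a, b] m ≠ 0 ↔ Fus l a b m := by
  rw [rank_two l a b m hb]
  split_ifs with h <;> simp [h]

/-- upper bounds for a nonzero four-point rank -/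
lemma rank_three_bounds (l a b c m : ℕ) (ha : a ≤ l) (hb : b ≤ l) (hc : c ≤ l) (hm : m ≤ l)
    (h : rank l [a, b, c] m ≠ 0) :
    rank l [a, b, c] m + m ≤ l + 1 ∧ rank l [a, b, c] m ≤ c + 1 ∧
    2 * rank l [a, b, c] m + m + a + b ≤ 2 * l + c + 2 ∧
    2 * rank l [a, b, c] m + m + a + c ≤ 2 * l + b + 2 ∧
    2 * rank l [a, b, c] m + m + b + c ≤ 2 * l + a + 2 ∧
    2 * rank l [a, b, c] m + a + b + c ≤ 2 * l + m + 2 ∧
    2 * rank l [a, b, c] m + m ≤ a + b + c + 2 := by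
  have hp : (a + b + c + m) % 2 = 0 := ((rank_three_ne l a b c m ha hb hc hm).1 h).1
  obtain ⟨lo, h1, h2⟩ := exists_lo a b c m
  obtain ⟨hi, h3, h4⟩ := exists_hi l a b c m (by omega) (by omega)
  rw [rank_three l a b c m lo hi hc hp h1 h2 h3 h4] at h ⊢
  obtain ⟨r, hr⟩ : ∃ r, r = (hi + 2 - lo) / 2 := ⟨_, rfl⟩
  have h5 : 2 * r + lo ≤ hi + 2 := by
    clear * - hr h; omega
  rw [← hr]
  clear hr h h2 h4 hp
  refine ⟨?_, ?_, ?_, ?_, ?_, ?_, ?_⟩ <;> omega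

/-- lower bound for a four-point rank -/
lemma le_rank_sym (l a b c m r : ℕ) (ha : a ≤ l) (hb : b ≤ l) (hc : c ≤ l) (hm : m ≤ l)
    (hp : (a + b + c + m) % 2 = 0)
    (k1 : r ≤ a + 1) (k2 : r ≤ b + 1) (k3 : r ≤ c + 1) (k4 : r ≤ m + 1)
    (k5 : r + a ≤ l + 1) (k6 : r + b ≤ l + 1) (k7 : r + c ≤ l + 1) (k8 : r + m ≤ l + 1)
    (k9 : 2 * r + a ≤ b + c + m + 2) (k10 : 2 * r + b ≤ a + c + m + 2)
    (k11 : 2 * r + c ≤ a + b + m + 2) (k12 : 2 * r + m ≤ a + b + c + 2)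
    (k13 : 2 * r + b + c + m ≤ 2 * l + a + 2) (k14 : 2 * r + a + c + m ≤ 2 * l + b + 2)
    (k15 : 2 * r + a + b + m ≤ 2 * l + c + 2) (k16 : 2 * r + a + b + c ≤ 2 * l + m + 2) :
    r ≤ rank l [a, b, c] m := by
  obtain ⟨lo, h1, h2⟩ := exists_lo a b c m
  obtain ⟨hi, h3, h4⟩ := exists_hi l a b c m (by omega) (by omega)
  rw [rank_three l a b c m lo hi hc hp h1 h2 h3 h4]
  have h5 : 2 * r + lo ≤ hi + 2 := by
    clear h1 h3 hp ha hb hc hm
    rcases h2 with h2 | h2 | h2 | h2 <;> rcases h4 with h4 | h4 | h4 | h4 <;> omega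
  clear * - h5
  omega

lemma deg4_eq (l a b c d s : ℕ) (hs : a + b + c + d = 2 * l + 2 * s) :
    deg4 l a b c d = s * rank l [b, c, d] a := by
  unfold deg4
  congr 1
  omega

/-- the degree on a curve whose third block is a single point -/
lemma Q_single (l a c0 : ℕ) (L1 L3 : List ℕ) (hc : c0 ≤ l) : Q l a L1 [c0] L3 =
    ∑ p ∈ range (l + 1) ×ˢ range (l + 1),
      deg4 l a p.1 c0 p.2 * (rank l L1 p.1 * rank l L3 p.2) := by
  unfold Q
  rw [Finset.sum_product]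
  apply Finset.sum_congr rfl
  intro b _
  rw [Finset.sum_eq_single c0]
  · simp only [rank_one l c0 c0 hc, if_true, mul_one]
  · intro c _ hne
    simp [rank_one l c0 c hc, hne]
  · intro h
    exact absurd (Finset.mem_range.2 (by omega)) h

lemma sum_le_of_inj {α β : Type} [DecidableEq β] {S : Finset α} {T : Finset β} (φ : α → β)
    (g : β → ℕ)
    (hmap : ∀ p ∈ S, φ p ∈ T) (hinj : ∀ p ∈ S, ∀ q ∈ S, φ p = φ q → p = q) :
    ∑ p ∈ S, g (φ p) ≤ ∑ q ∈ T, g q := by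
  rw [← Finset.sum_image hinj]
  apply Finset.sum_le_sum_of_subset
  intro q hq
  obtain ⟨p, hp, rfl⟩ := Finset.mem_image.1 hq
  exact hmap p hp

/-- lower bound for one term of the degree on a curve W -/
lemma wterm_ge (l a x y1 y2 zk zi zj ρ σ s ν e r : ℕ) (La : List ℕ)
    (ha : a ≤ l) (hx : x ≤ l) (h1 : y1 ≤ l) (h2 : y2 ≤ l) (hk : zk ≤ l) (hi : zi ≤ l)
    (hj : zj ≤ l) (hq : (a + x + y1 + y2 + zk + zi + zj) % 2 = 0)
    (he : e + l = a + x + y1 + y2) (hν : ν % 2 = e % 2)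
    (C1 : a + y1 + y2 ≤ l + 1) (C2a : 2 * l + a + x + y1 ≤ y2 + (zk + zi + zj))
    (C2b : 2 * l + a + x + y2 ≤ y1 + (zk + zi + zj))
    (Ck : a + x + zk ≤ l + 1) (Ci : a + x + zi ≤ l + 1) (Cj : a + x + zj ≤ l + 1)
    (hρ : ρ + ν + a = l + 2) (hσ : σ + zk + 2 = 2 * s + l + ν) (s1 : 1 ≤ s) (sa : s ≤ a)
    (ν1 : 1 ≤ ν) (v1 : σ + zi + zj ≤ 2 * l) (v2 : zi ≤ zj + σ) (v3 : zj ≤ zi + σ)
    (r1 : r ≤ ν) (r2 : r ≤ e) (hLa : ∀ σ, Fus l zi zj σ → 1 ≤ rank l La σ) :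
    ρ ≤ l ∧ σ ≤ l ∧
      s * (a + 1 - s) * r ≤ deg4 l a ρ zk σ * (rank l [y1, y2, x] ρ * rank l La σ) := by
  have b1 : ρ ≤ l := by
    clear * - hρ ν1 s1 sa; omega
  have b2 : σ ≤ l := by
    clear hq hν hLa; omega
  refine ⟨b1, b2, ?_⟩
  have f1 : Fus l zi zj σ := by
    unfold Fus
    refine ⟨?_, ?_, ?_, ?_, ?_⟩
    · clear * - hq he hν hσ; omega
    · clear * - v2; omega
    · clear * - v3; omega
    · clear hq hν hLa; omega
    · clear * - v1; omega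
  have g1 := hLa σ f1
  have hs : a + ρ + zk + σ = 2 * l + 2 * s := by
    clear * - hρ hσ; omega
  obtain ⟨ω, hω⟩ : ∃ ω, ω + s = a + 1 := ⟨a + 1 - s, by clear * - sa; omega⟩
  have hω' : a + 1 - s = ω := by
    clear * - hω; omega
  have g2 : ω ≤ rank l [ρ, zk, σ] a := by
    apply le_rank_sym l ρ zk σ a ω b1 hk b2 ha (by clear * - hs; omega)
    all_goals (clear hq hν hLa f1 g1 hω' r1 r2; omega)
  have g3 : r ≤ rank l [y1, y2, x] ρ := by
    apply le_rank_sym l y1 y2 x ρ r h1 h2 hx b1 (by clear * - hρ he hν; omega)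
    all_goals (clear hq hν hLa f1 g1 hω' g2 hω; omega)
  rw [deg4_eq l a ρ zk σ s hs, hω']
  calc s * ω * r = s * ω * (r * 1) := by ring
    _ ≤ s * rank l [ρ, zk, σ] a * (rank l [y1, y2, x] ρ * rank l La σ) := by gcongr

end Pool.Agent.P.MP_e1a373_ag
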