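import Pool.Agent.P.MP_e1a373_ag.Itv

/-! Linear consequences of the vanishing of the degree on certain F-curves. -/

namespace Pool.Agent.P.MP_e1a373_ag

/-- the linear facts attached to a nonzero term of the degree on the curve U -/
structure UF (l a x y1 y2 z3 z4 z5 b d : ℕ) : Prop where
  ha : a ≤ l
  hx : x ≤ l
  h1 : y1 ≤ l
  h2 : y2 ≤ l
  h3 : z3 ≤ l
  h4 : z4 ≤ l
  h5 : z5 ≤ l
  hb : b ≤ l
  hd : d ≤ l
  f1 : y1 ≤ x + b
  f2 : x ≤ y1 + b
  f3 : b ≤ y1 + x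
  f4 : y1 + x + b ≤ 2 * l
  p1 : z3 ≤ z4 + z5 + d
  p2 : z4 ≤ z3 + z5 + d
  p3 : z5 ≤ z3 + z4 + d
  p4 : d ≤ z3 + z4 + z5
  p5 : z4 + z5 + d ≤ 2 * l + z3
  p6 : z3 + z5 + d ≤ 2 * l + z4
  p7 : z3 + z4 + d ≤ 2 * l + z5
  p8 : z3 + z4 + z5 ≤ 2 * l + d
  D1 : 2 * l + 2 ≤ a + b + y2 + d
  D2 : b + y2 + d ≤ 2 * l + a
  D3 : a + y2 + d ≤ 2 * l + b
  D4 : a + b + d ≤ 2 * l + y2
  D5 : a + b + y2 ≤ 2 * l + d
  q1 : (y1 + x + b) % 2 = 0
  q2 : (z3 + z4 + z5 + d) % 2 = 0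
  q3 : (a + b + y2 + d) % 2 = 0

lemma UF.par {l a x y1 y2 z3 z4 z5 b d : ℕ} (h : UF l a x y1 y2 z3 z4 z5 b d) :
    (a + x + y1 + y2 + z3 + z4 + z5) % 2 = 0 := by
  have q1 := h.q1
  have q2 := h.q2
  have q3 := h.q3
  clear h
  omega

lemma clauseA {l a x y1 y2 z3 z4 z5 b d : ℕ} (h : UF l a x y1 y2 z3 z4 z5 b d)
    (hZ : Q l a [y1, x] [y2, z4] [z3, z5] = 0) :
    2 * l ≤ y2 + z4 ∨
    z3 + z5 ≤ 0 ∨
    2 * l ≤ z3 + z5 ∨
    a + x + y1 + z3 + z5 ≤ y2 + z4 ∨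
    2 * l + a + x + y1 ≤ y2 + z3 + z4 + z5 ∨
    2 * l + a + z3 + z5 ≤ x + y1 + y2 + z4 ∨
    4 * l + a ≤ x + y1 + y2 + z3 + z4 + z5 := by
  by_contra hn
  simp only [not_or, not_le] at hn
  obtain ⟨n0, n1, n2, n3, n4, n5, n6⟩ := hn
  have hq := h.par
  obtain ⟨ha, hx, h1, h2, h3, h4, h5, hb, hd, f1, f2, f3, f4, p1, p2, p3, p4, p5, p6, p7, p8, D1, D2, D3, D4, D5, -, -, -⟩ := h
  obtain ⟨lo1, hi1, I1, r1, u1, v1⟩ := itv_two l y1 x h1 hx
  have j1 := I1.1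
  have k1 := I1.2.1
  obtain ⟨lo2, hi2, I2, r2, u2, v2⟩ := itv_two l y2 z4 h2 h4
  have j2 := I2.1
  have k2 := I2.2.1
  obtain ⟨lo3, hi3, I3, r3, u3, v3⟩ := itv_two l z3 z5 h3 h5
  have j3 := I3.1
  have k3 := I3.2.1
  refine Q_ne_of_itv l a lo1 hi1 lo2 hi2 lo3 hi3 _ _ _ ha ?_ I1 I2 I3
    ?_ ?_ ?_ ?_ ?_ ?_ ?_ ?_ ?_ hZ
  · clear * - D1 D2; omega
  · clear * - hq r1 r2 r3; omega
  · rcases v1 with v1 | v1 <;> rcases v2 with v2 | v2 <;> rcases v3 with v3 | v3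
    · clear * - D1 f3 p4 v2 v1 v3; omega
    · clear * - D1 f3 v3 v2 v1 p6; omega
    · clear * - n3 v1 v3 v2; omega
    · clear * - n4 v3 v1 v2; omega
    · clear * - D1 v1 p4 v2 f4 v3; omega
    · clear * - D1 v1 v3 v2 f4 p6; omega
    · clear * - v1 n5 v3 v2; omega
    · clear * - v1 v3 n6 v2; omega
  · rcases v1 with v1 | v1 <;> rcases u2 with u2 | u2 <;> rcases u3 with u3 | u3
    · clear * - v1 p1 D3 u3 f3 u2; omega
    · clear * - v1 p3 D3 u3 f3 u2; omega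
    · clear * - D1 f3 ha v1 u2 p7 u3; omega
    · clear * - D1 f3 ha v1 u2 u3 p5; omega
    · clear * - v1 u3 p1 D3 f4 u2; omega
    · clear * - p3 v1 u3 D3 f4 u2; omega
    · clear * - D1 v1 ha u2 p7 f4 u3; omega
    · clear * - D1 v1 ha u2 u3 f4 p5; omega
  · rcases v2 with v2 | v2 <;> rcases u1 with u1 | u1 <;> rcases u3 with u3 | u3
    · clear * - v2 u1 u3 p1 f1 D4; omega
    · clear * - v2 u1 u3 p3 f1 D4; omega
    · clear * - v2 u1 u3 p1 f2 D4; omega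
    · clear * - v2 u1 u3 p3 f2 D4; omega
    · clear * - u1 u3 v2 D5 f1 p7; omega
    · clear * - u1 v2 u3 D5 f1 p5; omega
    · clear * - u1 u3 v2 D5 f2 p7; omega
    · clear * - u1 v2 u3 D5 f2 p5; omega
  · rcases v3 with v3 | v3 <;> rcases u1 with u1 | u1 <;> rcases u2 with u2 | u2
    · clear * - v3 u1 p4 D5 f1 u2; omega
    · clear * - u1 p2 u2 v3 f1 D4; omega
    · clear * - v3 u1 p4 D5 f2 u2; omega
    · clear * - u1 p2 u2 v3 f2 D4; omega
    · clear * - u1 v3 p6 D5 f1 u2; omega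
    · clear * - u1 v3 u2 p8 f1 D4; omega
    · clear * - u1 v3 p6 D5 f2 u2; omega
    · clear * - u1 v3 u2 p8 f2 D4; omega
  · rcases u1 with u1 | u1 <;> rcases u2 with u2 | u2 <;> rcases u3 with u3 | u3
    · clear * - u3 u1 p1 u2 D2 f1; omega
    · clear * - u1 D2 u3 p3 u2 f1; omega
    · clear * - D1 u1 u2 p7 f4 u3; omega
    · clear * - D1 u1 u2 f4 p5 u3; omega
    · clear * - u3 f2 p1 u2 D2 u1; omega
    · clear * - f2 D2 u3 p3 u2 u1; omega
    · clear * - D1 u1 u2 p7 f4 u3; omega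
    · clear * - D1 u1 u2 f4 p5 u3; omega
  · intro hl
    rcases v1 with v1 | v1
    · clear * - D1 v1 f3 D3; omega
    · clear * - D1 v1 f4 D3; omega
  · intro hl
    rcases v2 with v2 | v2
    · clear * - D1 v2 D4; omega
    · clear * - v2 n0; omega
  · intro hl
    rcases v3 with v3 | v3
    · clear * - v3 n1; omega
    · clear * - v3 n2; omega

lemma clauseB {l a x y1 y2 z3 z4 z5 b d : ℕ} (h : UF l a x y1 y2 z3 z4 z5 b d)
    (hZ : Q l a [z3, z4, z5, x] [y1] [y2] = 0) :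
    y1 ≤ 0 ∨
    a + y1 + y2 ≤ l + 1 ∨
    a + y1 + y2 + z4 + z5 ≤ x + z3 ∨
    a + y1 + y2 + z3 + z5 ≤ x + z4 ∨
    a + y1 + y2 + z3 + z4 ≤ x + z5 ∨
    2 * l + a + y1 + y2 ≤ x + z3 + z4 + z5 := by
  by_contra hn
  simp only [not_or, not_le] at hn
  obtain ⟨n0, n1, n2, n3, n4, n5⟩ := hn
  have hq := h.par
  obtain ⟨ha, hx, h1, h2, h3, h4, h5, hb, hd, f1, f2, f3, f4, p1, p2, p3, p4, p5, p6, p7, p8, D1, D2, D3, D4, D5, -, -, -⟩ := h
  obtain ⟨lo1, hi1, I1, r1, u1, v1⟩ := itv_four l z3 z4 z5 x h3 h4 h5 hx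
  have j1 := I1.1
  have k1 := I1.2.1
  refine Q_ne_of_itv l a lo1 hi1 y1 y1 y2 y2 _ _ _ ha ?_ I1 (itv_one l y1 h1) (itv_one l y2 h2)
    ?_ ?_ ?_ ?_ ?_ ?_ ?_ ?_ ?_ hZ
  · clear * - D1 D2; omega
  · clear * - hq r1; omega
  · rcases v1 with v1 | v1 | v1 | v1 | v1 | v1 | v1 | v1 | v1
    · clear * - v1 n1; omega
    · clear * - D1 f3 v1 p4; omega
    · clear * - D1 f3 p7 v1; omega
    · clear * - D1 f3 p6 v1; omega
    · clear * - v1 n2; omega
    · clear * - D1 f3 p5 v1; omega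
    · clear * - v1 n3; omega
    · clear * - v1 n4; omega
    · clear * - v1 n5; omega
  · rcases v1 with v1 | v1 | v1 | v1 | v1 | v1 | v1 | v1 | v1
    · clear * - f4 f1 D3 D5 v1; omega
    · clear * - f1 p4 D5 v1; omega
    · clear * - p7 v1 D5 f1; omega
    · clear * - p6 v1 D5 f1; omega
    · clear * - v1 f4 p1 D3; omega
    · clear * - p5 v1 D5 f1; omega
    · clear * - v1 f4 p2 D3; omega
    · clear * - v1 f4 p3 D3; omega
    · clear * - v1 f4 p8 D3; omega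
  · rcases u1 with u1 | u1 | u1 | u1 | u1 | u1 | u1 | u1 | u1
    · clear * - n0 D3 D5 u1; omega
    · clear * - f3 D3 u1 p1; omega
    · clear * - f3 D3 u1 p2; omega
    · clear * - f3 D3 u1 p3; omega
    · clear * - u1 p4 D5 f2; omega
    · clear * - f3 u1 p8 D3; omega
    · clear * - p7 u1 D5 f2; omega
    · clear * - p6 u1 D5 f2; omega
    · clear * - p5 u1 D5 f2; omega
  · rcases u1 with u1 | u1 | u1 | u1 | u1 | u1 | u1 | u1 | u1
    · clear * - D1 ha h1 D4 u1; omega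
    · clear * - u1 p1 D4 f1; omega
    · clear * - u1 p2 D4 f1; omega
    · clear * - u1 p3 D4 f1; omega
    · clear * - D1 u1 ha f4 p4; omega
    · clear * - u1 p8 D4 f1; omega
    · clear * - D1 u1 ha f4 p7; omega
    · clear * - D1 u1 ha f4 p6; omega
    · clear * - D1 u1 ha f4 p5; omega
  · rcases u1 with u1 | u1 | u1 | u1 | u1 | u1 | u1 | u1 | u1
    · clear * - D1 h1 h2 D2 u1; omega
    · clear * - u1 p1 D2 f1; omega
    · clear * - u1 p2 D2 f1; omega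
    · clear * - u1 p3 D2 f1; omega
    · clear * - D1 u1 h2 f4 p4; omega
    · clear * - u1 p8 D2 f1; omega
    · clear * - D1 u1 f4 h2 p7; omega
    · clear * - D1 u1 f4 h2 p6; omega
    · clear * - D1 u1 f4 h2 p5; omega
  · intro hl
    rcases v1 with v1 | v1 | v1 | v1 | v1 | v1 | v1 | v1 | v1
    · clear * - hl v1; omega
    · clear * - D1 v1 p4 D5; omega
    · clear * - D1 p7 v1 D5; omega
    · clear * - D1 p6 v1 D5; omega
    · clear * - v1 D3 f4 p1 n2; omega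
    · clear * - D1 p5 v1 D5; omega
    · clear * - v1 D3 f4 p2 n3; omega
    · clear * - v1 D3 f4 p3 n4; omega
    · clear * - v1 D3 f4 p8 n5; omega
  · intro hl
    clear * - n0; omega
  · intro hl
    clear * - D1 D4; omega

lemma clauseC {l a x y1 y2 z3 z4 z5 b d : ℕ} (h : UF l a x y1 y2 z3 z4 z5 b d)
    (hZ : Q l a [x] [y1, z3, z4, z5] [y2] = 0) :
    x ≤ 0 ∨
    a + x + y2 ≤ l + 1 ∨
    a + x + y2 + z4 + z5 ≤ y1 + z3 ∨
    a + x + y2 + z3 + z5 ≤ y1 + z4 ∨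
    a + x + y2 + z3 + z4 ≤ y1 + z5 ∨
    2 * l + a + x + y2 ≤ y1 + z3 + z4 + z5 := by
  by_contra hn
  simp only [not_or, not_le] at hn
  obtain ⟨n0, n1, n2, n3, n4, n5⟩ := hn
  have hq := h.par
  obtain ⟨ha, hx, h1, h2, h3, h4, h5, hb, hd, f1, f2, f3, f4, p1, p2, p3, p4, p5, p6, p7, p8, D1, D2, D3, D4, D5, -, -, -⟩ := h
  obtain ⟨lo2, hi2, I2, r2, u2, v2⟩ := itv_four l y1 z3 z4 z5 h1 h3 h4 h5
  have j2 := I2.1
  have k2 := I2.2.1
  refine Q_ne_of_itv l a x x lo2 hi2 y2 y2 _ _ _ ha ?_ (itv_one l x hx) I2 (itv_one l y2 h2)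
    ?_ ?_ ?_ ?_ ?_ ?_ ?_ ?_ ?_ hZ
  · clear * - D1 D2; omega
  · clear * - hq r2; omega
  · rcases v2 with v2 | v2 | v2 | v2 | v2 | v2 | v2 | v2 | v2
    · clear * - v2 n1; omega
    · clear * - D1 f3 p4 v2; omega
    · clear * - v2 n2; omega
    · clear * - v2 n3; omega
    · clear * - v2 n4; omega
    · clear * - D1 f3 v2 p7; omega
    · clear * - D1 f3 v2 p6; omega
    · clear * - D1 f3 v2 p5; omega
    · clear * - v2 n5; omega
  · rcases u2 with u2 | u2 | u2 | u2 | u2 | u2 | u2 | u2 | u2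
    · clear * - D3 D5 n0 u2; omega
    · clear * - p4 D5 f1 u2; omega
    · clear * - f3 u2 p1 D3; omega
    · clear * - f3 u2 p2 D3; omega
    · clear * - f3 u2 p3 D3; omega
    · clear * - p7 u2 D5 f1; omega
    · clear * - p6 u2 D5 f1; omega
    · clear * - p5 u2 D5 f1; omega
    · clear * - f3 u2 p8 D3; omega
  · rcases v2 with v2 | v2 | v2 | v2 | v2 | v2 | v2 | v2 | v2
    · clear * - hx D3 D5 v2; omega
    · clear * - f2 p4 D5 v2; omega
    · clear * - v2 f4 p1 D3; omega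
    · clear * - v2 f4 p2 D3; omega
    · clear * - v2 f4 p3 D3; omega
    · clear * - v2 D5 p7 f2; omega
    · clear * - v2 D5 p6 f2; omega
    · clear * - v2 D5 p5 f2; omega
    · clear * - v2 f4 p8 D3; omega
  · rcases u2 with u2 | u2 | u2 | u2 | u2 | u2 | u2 | u2 | u2
    · clear * - D1 ha hx D4 u2; omega
    · clear * - D1 u2 ha f4 p4; omega
    · clear * - u2 p1 D4 f2; omega
    · clear * - u2 p2 D4 f2; omega
    · clear * - u2 p3 D4 f2; omega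
    · clear * - D1 u2 ha f4 p7; omega
    · clear * - D1 u2 ha f4 p6; omega
    · clear * - D1 u2 ha f4 p5; omega
    · clear * - u2 p8 D4 f2; omega
  · rcases u2 with u2 | u2 | u2 | u2 | u2 | u2 | u2 | u2 | u2
    · clear * - D1 hx h2 D2 u2; omega
    · clear * - D1 u2 h2 f4 p4; omega
    · clear * - u2 p1 D2 f2; omega
    · clear * - u2 p2 D2 f2; omega
    · clear * - u2 p3 D2 f2; omega
    · clear * - D1 u2 f4 h2 p7; omega
    · clear * - D1 u2 f4 h2 p6; omega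
    · clear * - D1 u2 f4 h2 p5; omega
    · clear * - u2 p8 D2 f2; omega
  · intro hl
    clear * - n0; omega
  · intro hl
    rcases v2 with v2 | v2 | v2 | v2 | v2 | v2 | v2 | v2 | v2
    · clear * - hl v2; omega
    · clear * - D1 p4 D5 v2; omega
    · clear * - v2 D3 f4 p1 n2; omega
    · clear * - v2 D3 f4 p2 n3; omega
    · clear * - v2 D3 f4 p3 n4; omega
    · clear * - D1 v2 D5 p7; omega
    · clear * - D1 v2 D5 p6; omega
    · clear * - D1 v2 D5 p5; omega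
    · clear * - v2 D3 f4 p8 n5; omega
  · intro hl
    clear * - D1 D4; omega

lemma clauseE5 {l a x y1 y2 z3 z4 z5 b d : ℕ} (h : UF l a x y1 y2 z3 z4 z5 b d)
    (hZ : Q l a [x] [y1, y2, z3, z4] [z5] = 0) :
    x ≤ 0 ∨
    z5 ≤ 0 ∨
    a + x + z5 ≤ l + 1 ∨
    a + x + z3 + z4 + z5 ≤ y1 + y2 ∨
    a + x + y2 + z4 + z5 ≤ y1 + z3 ∨
    a + x + y2 + z3 + z5 ≤ y1 + z4 ∨
    a + x + y1 + z4 + z5 ≤ y2 + z3 ∨
    a + x + y1 + z3 + z5 ≤ y2 + z4 ∨
    2 * l + a + x + z5 ≤ y1 + y2 + z3 + z4 := by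
  by_contra hn
  simp only [not_or, not_le] at hn
  obtain ⟨n0, n1, n2, n3, n4, n5, n6, n7, n8⟩ := hn
  have hq := h.par
  obtain ⟨ha, hx, h1, h2, h3, h4, h5, hb, hd, f1, f2, f3, f4, p1, p2, p3, p4, p5, p6, p7, p8, D1, D2, D3, D4, D5, -, -, -⟩ := h
  obtain ⟨lo2, hi2, I2, r2, u2, v2⟩ := itv_four l y1 y2 z3 z4 h1 h2 h3 h4
  have j2 := I2.1
  have k2 := I2.2.1
  refine Q_ne_of_itv l a x x lo2 hi2 z5 z5 _ _ _ ha ?_ (itv_one l x hx) I2 (itv_one l z5 h5)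
    ?_ ?_ ?_ ?_ ?_ ?_ ?_ ?_ ?_ hZ
  · clear * - D1 D2; omega
  · clear * - hq r2; omega
  · rcases v2 with v2 | v2 | v2 | v2 | v2 | v2 | v2 | v2 | v2
    · clear * - v2 n2; omega
    · clear * - p4 D1 f3 v2; omega
    · clear * - n3 v2; omega
    · clear * - v2 n4; omega
    · clear * - v2 n5; omega
    · clear * - n6 v2; omega
    · clear * - n7 v2; omega
    · clear * - D1 f3 v2 p7; omega
    · clear * - v2 n8; omega
  · rcases u2 with u2 | u2 | u2 | u2 | u2 | u2 | u2 | u2 | u2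
    · clear * - u2 n0 h5 ha; omega
    · clear * - u2 p3 f1 D4; omega
    · clear * - u2 p3 f3 D3; omega
    · clear * - D1 f3 ha u2 p6; omega
    · clear * - D1 ha f3 u2 p5; omega
    · clear * - f1 u2 D5 p6; omega
    · clear * - f1 u2 D5 p5; omega
    · clear * - p8 u2 f1 D4; omega
    · clear * - p8 u2 f3 D3; omega
  · rcases v2 with v2 | v2 | v2 | v2 | v2 | v2 | v2 | v2 | v2
    · clear * - ha h5 f4 f2 v2; omega
    · clear * - f2 v2 D4 p3; omega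
    · clear * - p3 f4 v2 D3; omega
    · clear * - f4 D1 p6 ha v2; omega
    · clear * - f4 D1 p5 ha v2; omega
    · clear * - p6 v2 D5 f2; omega
    · clear * - v2 p5 D5 f2; omega
    · clear * - v2 p8 D4 f2; omega
    · clear * - f4 v2 p8 D3; omega
  · rcases u2 with u2 | u2 | u2 | u2 | u2 | u2 | u2 | u2 | u2
    · clear * - n1 u2 f4 f2 ha; omega
    · clear * - D1 ha u2 f4 p4; omega
    · clear * - p4 f2 D5 u2; omega
    · clear * - D4 u2 p1 f2; omega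
    · clear * - D4 u2 p2 f2; omega
    · clear * - p1 u2 f4 D3; omega
    · clear * - D3 u2 f4 p2; omega
    · clear * - f4 D1 ha u2 p7; omega
    · clear * - D5 f2 u2 p7; omega
  · rcases u2 with u2 | u2 | u2 | u2 | u2 | u2 | u2 | u2 | u2
    · clear * - h5 D1 hx u2 D2; omega
    · clear * - p6 D1 u2 f4; omega
    · clear * - u2 p3 D2 f2; omega
    · clear * - D1 f4 u2 p6; omega
    · clear * - D1 f4 u2 p5; omega
    · clear * - D1 u2 f4 h2 p6; omega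
    · clear * - D1 f4 h2 u2 p5; omega
    · clear * - p6 D1 p5 p7 u2 p8 f4; omega
    · clear * - p8 u2 D2 f2; omega
  · intro hl
    clear * - n0; omega
  · intro hl
    rcases v2 with v2 | v2 | v2 | v2 | v2 | v2 | v2 | v2 | v2
    · clear * - v2 hl; omega
    · clear * - D1 v2 D4; omega
    · clear * - f4 n3 v2 p3 D3; omega
    · clear * - f4 D1 p6 ha v2 n4; omega
    · clear * - f4 D1 p5 ha v2 n5; omega
    · clear * - n6 v2 D5 f2 p6; omega
    · clear * - n7 v2 D5 f2 p5; omega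
    · clear * - D1 v2 p7 p8 D4; omega
    · clear * - f4 v2 n8 p8 D3; omega
  · intro hl
    clear * - n1; omega

lemma clauseE4 {l a x y1 y2 z3 z4 z5 b d : ℕ} (h : UF l a x y1 y2 z3 z4 z5 b d)
    (hZ : Q l a [x] [y1, y2, z3, z5] [z4] = 0) :
    x ≤ 0 ∨
    z4 ≤ 0 ∨
    a + x + z4 ≤ l + 1 ∨
    a + x + z3 + z4 + z5 ≤ y1 + y2 ∨
    a + x + y2 + z4 + z5 ≤ y1 + z3 ∨
    a + x + y2 + z3 + z4 ≤ y1 + z5 ∨
    a + x + y1 + z4 + z5 ≤ y2 + z3 ∨
    a + x + y1 + z3 + z4 ≤ y2 + z5 ∨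
    2 * l + a + x + z4 ≤ y1 + y2 + z3 + z5 := by
  by_contra hn
  simp only [not_or, not_le] at hn
  obtain ⟨n0, n1, n2, n3, n4, n5, n6, n7, n8⟩ := hn
  have hq := h.par
  obtain ⟨ha, hx, h1, h2, h3, h4, h5, hb, hd, f1, f2, f3, f4, p1, p2, p3, p4, p5, p6, p7, p8, D1, D2, D3, D4, D5, -, -, -⟩ := h
  obtain ⟨lo2, hi2, I2, r2, u2, v2⟩ := itv_four l y1 y2 z3 z5 h1 h2 h3 h5
  have j2 := I2.1
  have k2 := I2.2.1
  refine Q_ne_of_itv l a x x lo2 hi2 z4 z4 _ _ _ ha ?_ (itv_one l x hx) I2 (itv_one l z4 h4)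
    ?_ ?_ ?_ ?_ ?_ ?_ ?_ ?_ ?_ hZ
  · clear * - D1 D2; omega
  · clear * - hq r2; omega
  · rcases v2 with v2 | v2 | v2 | v2 | v2 | v2 | v2 | v2 | v2
    · clear * - n2 v2; omega
    · clear * - p4 D1 f3 v2; omega
    · clear * - n3 v2; omega
    · clear * - v2 n4; omega
    · clear * - v2 n5; omega
    · clear * - n6 v2; omega
    · clear * - v2 n7; omega
    · clear * - D1 v2 p6 f3; omega
    · clear * - v2 n8; omega
  · rcases u2 with u2 | u2 | u2 | u2 | u2 | u2 | u2 | u2 | u2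
    · clear * - u2 n0 h4 ha; omega
    · clear * - u2 p2 f1 D4; omega
    · clear * - p2 u2 f3 D3; omega
    · clear * - D1 f3 ha u2 p7; omega
    · clear * - D1 f3 ha u2 p5; omega
    · clear * - f1 u2 D5 p7; omega
    · clear * - f1 u2 D5 p5; omega
    · clear * - u2 f1 p8 D4; omega
    · clear * - u2 p8 f3 D3; omega
  · rcases v2 with v2 | v2 | v2 | v2 | v2 | v2 | v2 | v2 | v2
    · clear * - hx ha v2 h4; omega
    · clear * - f2 v2 D4 p2; omega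
    · clear * - f4 v2 p2 D3; omega
    · clear * - f4 D1 p7 ha v2; omega
    · clear * - f4 D1 p5 ha v2; omega
    · clear * - f2 p7 D5 v2; omega
    · clear * - p5 v2 D5 f2; omega
    · clear * - D4 v2 p8 f2; omega
    · clear * - f4 v2 p8 D3; omega
  · rcases u2 with u2 | u2 | u2 | u2 | u2 | u2 | u2 | u2 | u2
    · clear * - hx u2 n1 ha; omega
    · clear * - D1 ha u2 f4 p4; omega
    · clear * - f2 p4 D5 u2; omega
    · clear * - D4 u2 p1 f2; omega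
    · clear * - u2 D4 p3 f2; omega
    · clear * - p1 u2 f4 D3; omega
    · clear * - f4 D3 p3 u2; omega
    · clear * - D1 p6 ha u2 f4; omega
    · clear * - f2 D5 u2 p6; omega
  · rcases u2 with u2 | u2 | u2 | u2 | u2 | u2 | u2 | u2 | u2
    · clear * - D1 hx h4 u2 D2; omega
    · clear * - D1 p7 u2 f4; omega
    · clear * - u2 p2 D2 f2; omega
    · clear * - D1 f4 u2 p7; omega
    · clear * - D1 f4 u2 p5; omega
    · clear * - f4 D1 u2 h2 p7; omega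
    · clear * - f4 D1 h2 u2 p5; omega
    · clear * - D1 p5 p6 p7 u2 p8 f4; omega
    · clear * - u2 p8 D2 f2; omega
  · intro hl
    clear * - n0; omega
  · intro hl
    rcases v2 with v2 | v2 | v2 | v2 | v2 | v2 | v2 | v2 | v2
    · clear * - v2 hl; omega
    · clear * - D1 v2 D4; omega
    · clear * - f4 n3 D3 v2 p2; omega
    · clear * - f4 D1 p7 ha v2 n4; omega
    · clear * - f4 D1 p5 ha v2 n5; omega
    · clear * - n6 p7 v2 D5 f2; omega
    · clear * - f2 p5 n7 v2 D5; omega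
    · clear * - D1 v2 p8 p6 D4; omega
    · clear * - f4 v2 p8 n8 D3; omega
  · intro hl
    clear * - n1; omega

lemma clauseE3 {l a x y1 y2 z3 z4 z5 b d : ℕ} (h : UF l a x y1 y2 z3 z4 z5 b d)
    (hZ : Q l a [x] [y1, y2, z4, z5] [z3] = 0) :
    x ≤ 0 ∨
    z3 ≤ 0 ∨
    a + x + z3 ≤ l + 1 ∨
    a + x + z3 + z4 + z5 ≤ y1 + y2 ∨
    a + x + y2 + z3 + z5 ≤ y1 + z4 ∨
    a + x + y2 + z3 + z4 ≤ y1 + z5 ∨
    a + x + y1 + z3 + z5 ≤ y2 + z4 ∨
    a + x + y1 + z3 + z4 ≤ y2 + z5 ∨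
    2 * l + a + x + z3 ≤ y1 + y2 + z4 + z5 := by
  by_contra hn
  simp only [not_or, not_le] at hn
  obtain ⟨n0, n1, n2, n3, n4, n5, n6, n7, n8⟩ := hn
  have hq := h.par
  obtain ⟨ha, hx, h1, h2, h3, h4, h5, hb, hd, f1, f2, f3, f4, p1, p2, p3, p4, p5, p6, p7, p8, D1, D2, D3, D4, D5, -, -, -⟩ := h
  obtain ⟨lo2, hi2, I2, r2, u2, v2⟩ := itv_four l y1 y2 z4 z5 h1 h2 h4 h5
  have j2 := I2.1
  have k2 := I2.2.1
  refine Q_ne_of_itv l a x x lo2 hi2 z3 z3 _ _ _ ha ?_ (itv_one l x hx) I2 (itv_one l z3 h3)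
    ?_ ?_ ?_ ?_ ?_ ?_ ?_ ?_ ?_ hZ
  · clear * - D1 D2; omega
  · clear * - hq r2; omega
  · rcases v2 with v2 | v2 | v2 | v2 | v2 | v2 | v2 | v2 | v2
    · clear * - n2 v2; omega
    · clear * - p4 D1 f3 v2; omega
    · clear * - v2 n3; omega
    · clear * - v2 n4; omega
    · clear * - v2 n5; omega
    · clear * - n6 v2; omega
    · clear * - v2 n7; omega
    · clear * - D1 v2 f3 p5; omega
    · clear * - v2 n8; omega
  · rcases u2 with u2 | u2 | u2 | u2 | u2 | u2 | u2 | u2 | u2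
    · clear * - u2 n0 h3 ha; omega
    · clear * - p1 u2 f1 D4; omega
    · clear * - p1 u2 f3 D3; omega
    · clear * - D1 f3 ha u2 p7; omega
    · clear * - D1 f3 ha u2 p6; omega
    · clear * - f1 u2 D5 p7; omega
    · clear * - f1 u2 D5 p6; omega
    · clear * - u2 f1 p8 D4; omega
    · clear * - u2 p8 f3 D3; omega
  · rcases v2 with v2 | v2 | v2 | v2 | v2 | v2 | v2 | v2 | v2
    · clear * - f4 ha f2 v2 h3; omega
    · clear * - f2 v2 D4 p1; omega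
    · clear * - f4 p1 v2 D3; omega
    · clear * - f4 D1 p7 ha v2; omega
    · clear * - f4 D1 ha v2 p6; omega
    · clear * - p7 f2 D5 v2; omega
    · clear * - f2 v2 D5 p6; omega
    · clear * - v2 D4 p8 f2; omega
    · clear * - v2 f4 D3 p8; omega
  · rcases u2 with u2 | u2 | u2 | u2 | u2 | u2 | u2 | u2 | u2
    · clear * - hx u2 n1 ha; omega
    · clear * - D1 ha u2 f4 p4; omega
    · clear * - f2 p4 D5 u2; omega
    · clear * - u2 f2 D4 p2; omega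
    · clear * - u2 D4 p3 f2; omega
    · clear * - f4 u2 D3 p2; omega
    · clear * - f4 D3 p3 u2; omega
    · clear * - D1 p5 ha u2 f4; omega
    · clear * - f2 D5 u2 p5; omega
  · rcases u2 with u2 | u2 | u2 | u2 | u2 | u2 | u2 | u2 | u2
    · clear * - D1 hx h3 u2 D2; omega
    · clear * - D1 p7 u2 f4; omega
    · clear * - u2 p1 D2 f2; omega
    · clear * - D1 f4 u2 p7; omega
    · clear * - D1 f4 u2 p6; omega
    · clear * - f4 D1 u2 h2 p7; omega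
    · clear * - f4 D1 h2 u2 p6; omega
    · clear * - D1 p6 p7 p5 u2 p8 f4; omega
    · clear * - u2 p8 D2 f2; omega
  · intro hl
    clear * - n0; omega
  · intro hl
    rcases v2 with v2 | v2 | v2 | v2 | v2 | v2 | v2 | v2 | v2
    · clear * - hl v2; omega
    · clear * - D1 v2 D4; omega
    · clear * - f4 n3 v2 p1 D3; omega
    · clear * - f4 D1 p7 ha v2 n4; omega
    · clear * - f4 D1 ha v2 p6 n5; omega
    · clear * - v2 n6 f2 D5 p7; omega
    · clear * - n7 f2 v2 D5 p6; omega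
    · clear * - D1 p8 v2 p5 D4; omega
    · clear * - n8 p8 D3 v2 f4; omega
  · intro hl
    clear * - n1; omega

lemma clauseF {l a x y1 y2 z3 z4 z5 b d : ℕ} (h : UF l a x y1 y2 z3 z4 z5 b d)
    (hZ : Q l a [y2, x] [y1, z3] [z4, z5] = 0) :
    2 * l ≤ x + y2 ∨
    y1 + z3 ≤ 0 ∨
    2 * l ≤ y1 + z3 ∨
    z4 + z5 ≤ 0 ∨
    2 * l ≤ z4 + z5 ∨
    a + x + y2 + z4 + z5 ≤ y1 + z3 ∨
    2 * l + a + x + y2 ≤ y1 + z3 + z4 + z5 ∨
    a + y1 + z3 + z4 + z5 ≤ x + y2 ∨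
    2 * l + a + y1 + z3 ≤ x + y2 + z4 + z5 ∨
    2 * l + a + z4 + z5 ≤ x + y1 + y2 + z3 ∨
    4 * l + a ≤ x + y1 + y2 + z3 + z4 + z5 := by
  by_contra hn
  simp only [not_or, not_le] at hn
  obtain ⟨n0, n1, n2, n3, n4, n5, n6, n7, n8, n9, n10⟩ := hn
  have hq := h.par
  obtain ⟨ha, hx, h1, h2, h3, h4, h5, hb, hd, f1, f2, f3, f4, p1, p2, p3, p4, p5, p6, p7, p8, D1, D2, D3, D4, D5, -, -, -⟩ := h
  obtain ⟨lo1, hi1, I1, r1, u1, v1⟩ := itv_two l y2 x h2 hx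
  have j1 := I1.1
  have k1 := I1.2.1
  obtain ⟨lo2, hi2, I2, r2, u2, v2⟩ := itv_two l y1 z3 h1 h3
  have j2 := I2.1
  have k2 := I2.2.1
  obtain ⟨lo3, hi3, I3, r3, u3, v3⟩ := itv_two l z4 z5 h4 h5
  have j3 := I3.1
  have k3 := I3.2.1
  refine Q_ne_of_itv l a lo1 hi1 lo2 hi2 lo3 hi3 _ _ _ ha ?_ I1 I2 I3
    ?_ ?_ ?_ ?_ ?_ ?_ ?_ ?_ ?_ hZ
  · clear * - D1 D2; omega
  · clear * - hq r1 r2 r3; omega
  · rcases v1 with v1 | v1 <;> rcases v2 with v2 | v2 <;> rcases v3 with v3 | v3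
    · clear * - D1 f3 p4 v2 v1 v3; omega
    · clear * - D1 f3 p5 v3 v1 v2; omega
    · clear * - v2 v3 v1 n5; omega
    · clear * - v2 v1 n6 v3; omega
    · clear * - v1 n7 v2 v3; omega
    · clear * - v1 n8 v3 v2; omega
    · clear * - v1 v2 v3 n9; omega
    · clear * - v1 v2 v3 n10; omega
  · rcases v1 with v1 | v1 <;> rcases u2 with u2 | u2 <;> rcases u3 with u3 | u3
    · clear * - v1 u2 u3 p2 f1 D4; omega
    · clear * - v1 u2 u3 p3 f1 D4; omega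
    · clear * - v1 ha u2 p7 f3 D1 u3; omega
    · clear * - v1 p6 ha u2 f3 D1 u3; omega
    · clear * - v1 u2 D3 u3 f4 p2; omega
    · clear * - v1 u2 D3 u3 f4 p3; omega
    · clear * - u3 v1 u2 p7 D5 f2; omega
    · clear * - p6 v1 u2 u3 D5 f2; omega
  · rcases v2 with v2 | v2 <;> rcases u1 with u1 | u1 <;> rcases u3 with u3 | u3
    · clear * - v2 p2 D3 u3 f3 u1; omega
    · clear * - v2 p3 D3 u3 f3 u1; omega
    · clear * - u1 p2 u3 v2 f2 D4; omega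
    · clear * - u1 p3 u3 v2 f2 D4; omega
    · clear * - f1 v2 u3 p7 D5 u1; omega
    · clear * - f1 v2 p6 u3 D5 u1; omega
    · clear * - D1 u1 v2 ha p7 f4 u3; omega
    · clear * - D1 u1 v2 ha f4 p6 u3; omega
  · rcases v3 with v3 | v3 <;> rcases u1 with u1 | u1 <;> rcases u2 with u2 | u2
    · clear * - f1 p4 u1 D5 u2 v3; omega
    · clear * - p1 D3 u1 u2 f3 v3; omega
    · clear * - D1 u1 ha f4 u2 v3 p4; omega
    · clear * - u1 p1 v3 D4 f2 u2; omega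
    · clear * - p5 v3 f1 D5 u2 u1; omega
    · clear * - u2 v3 p8 D3 f3 u1; omega
    · clear * - D1 u1 ha v3 u2 f4 p5; omega
    · clear * - u1 v3 p8 D4 f2 u2; omega
  · rcases u1 with u1 | u1 <;> rcases u2 with u2 | u2 <;> rcases u3 with u3 | u3
    · clear * - u3 p2 f1 u2 D2 u1; omega
    · clear * - u2 p3 u3 f1 D2 u1; omega
    · clear * - D1 p7 f3 u2 h2 u1 u3; omega
    · clear * - D1 h2 u2 u3 p6 f3 u1; omega
    · clear * - D1 f4 u2 u1 u3 p5; omega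
    · clear * - D1 f4 u2 u1 u3 p6; omega
    · clear * - D1 u2 f4 u3 p7 u1; omega
    · clear * - D1 u2 f4 p6 u3 u1; omega
  · intro hl
    rcases v1 with v1 | v1
    · clear * - D1 v1 D4; omega
    · clear * - v1 n0; omega
  · intro hl
    rcases v2 with v2 | v2
    · clear * - v2 n1; omega
    · clear * - v2 n2; omega
  · intro hl
    rcases v3 with v3 | v3
    · clear * - n3 v3; omega
    · clear * - v3 n4; omega

end Pool.Agent.P.MP_e1a373_ag
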