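import Pool.Agent.P.MP_e1a373_ag.Clauses

/-! The face cut out by the seven vanishing conditions. -/

namespace Pool.Agent.P.MP_e1a373_ag

/-- vanishing of the degree on the seven test curves -/
structure ZF (l a x y1 y2 z3 z4 z5 : ℕ) : Prop where
  zA : Q l a [y1, x] [y2, z4] [z3, z5] = 0
  zB : Q l a [z3, z4, z5, x] [y1] [y2] = 0
  zC : Q l a [x] [y1, z3, z4, z5] [y2] = 0
  zE5 : Q l a [x] [y1, y2, z3, z4] [z5] = 0
  zE4 : Q l a [x] [y1, y2, z3, z5] [z4] = 0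
  zE3 : Q l a [x] [y1, y2, z4, z5] [z3] = 0
  zF : Q l a [y2, x] [y1, z3] [z4, z5] = 0

lemma condC1 {l a x y1 y2 z3 z4 z5 b d : ℕ} (h : UF l a x y1 y2 z3 z4 z5 b d)
    (hZ : ZF l a x y1 y2 z3 z4 z5) : a + y1 + y2 ≤ l + 1 := by
  have ZB := clauseB h hZ.zB
  have ZC := clauseC h hZ.zC
  have ZA := clauseA h hZ.zA
  have ZE4 := clauseE4 h hZ.zE4
  have ZE5 := clauseE5 h hZ.zE5
  by_contra ng0
  have ng : l + 2 ≤ a + y1 + y2 := by
    clear * - ng0; omega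
  clear ng0 hZ
  obtain ⟨ha, hx, h1, h2, h3, h4, h5, hb, hd, f1, f2, f3, f4, p1, p2, p3, p4, p5, p6, p7, p8, D1, D2, D3, D4, D5, -, -, -⟩ := h
  rcases ZB with q0 | q0 | q0 | q0 | q0 | q0
  · rcases ZC with q1 | q1 | q1 | q1 | q1 | q1
    · clear * - D1 f3 D3 q1 q0; omega
    · clear * - ng D1 f3 q1 q0 D3; omega
    · clear * - q1 p6 q0 p1 ng; omega
    · clear * - q1 p5 q0 p2 ng; omega
    · clear * - q1 p5 q0 p3 ng; omega
    · clear * - D3 q1 f3 q0 p8 ng; omega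
  · clear * - ng q0; omega
  · rcases ZA with q1 | q1 | q1 | q1 | q1 | q1 | q1
    · clear * - ng q0 q1 hx h2 p1 p7; omega
    · clear * - ng q0 hx q1; omega
    · clear * - ng D1 q0 p6 q1 D5 hx h3; omega
    · clear * - h2 q0 ng q1; omega
    · clear * - ng h2 q0 q1 h3; omega
    · clear * - D1 q0 hx q1 D2; omega
    · clear * - D1 q1 hx q0 h3 D2; omega
  · rcases ZE4 with q1 | q1 | q1 | q1 | q1 | q1 | q1 | q1 | q1
    · clear * - q0 p5 q1 p2 ng; omega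
    · clear * - ng q0 hx q1; omega
    · clear * - D1 q0 ng D2 q1; omega
    · clear * - D1 q0 q1 D2; omega
    · clear * - p5 D1 q0 ng f4 q1; omega
    · clear * - p5 D1 q0 ng f4 q1; omega
    · clear * - h2 q0 ng q1; omega
    · clear * - h2 q0 ng q1; omega
    · clear * - p5 D1 q0 ng D3 f4 D5 q1 D2; omega
  · rcases ZA with q1 | q1 | q1 | q1 | q1 | q1 | q1
    · clear * - ng q0 q1 hx h2 p3 p5; omega
    · clear * - ng q0 hx q1; omega
    · clear * - ng D1 q0 q1 p6 hx D5 h5; omega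
    · clear * - h2 q0 ng q1; omega
    · clear * - ng h2 q0 h5 q1; omega
    · clear * - D1 q0 hx q1 D2; omega
    · clear * - D1 q1 hx h5 q0 D2; omega
  · rcases ZE5 with q1 | q1 | q1 | q1 | q1 | q1 | q1 | q1 | q1
    · clear * - q0 p5 q1 p6 p7 p8 ng; omega
    · clear * - ng q0 D5 hx p7 D1 q1; omega
    · clear * - D1 q0 ng q1 p7 p8 D2; omega
    · clear * - p8 D1 q0 ng D3 f4 D2 q1; omega
    · clear * - p8 D1 q0 ng q1 f4 p7 p6; omega
    · clear * - p8 D1 q0 ng f4 q1 p7 p5; omega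
    · clear * - ng h2 q0 q1 h3; omega
    · clear * - ng h2 q0 h4 q1; omega
    · clear * - D1 q0 q1 p7 p8 D2; omega

lemma condC2b {l a x y1 y2 z3 z4 z5 b d : ℕ} (h : UF l a x y1 y2 z3 z4 z5 b d)
    (hZ : ZF l a x y1 y2 z3 z4 z5) : 2 * l + a + x + y2 ≤ y1 + z3 + z4 + z5 := by
  have C1 := condC1 h hZ
  have ZC := clauseC h hZ.zC
  have ZF := clauseF h hZ.zF
  have ZA := clauseA h hZ.zA
  by_contra ng0
  have hq := h.par
  have ng : y1 + z3 + z4 + z5 + 2 ≤ 2 * l + a + x + y2 := by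
    clear * - ng0 hq; omega
  clear hq
  clear ng0 hZ
  obtain ⟨ha, hx, h1, h2, h3, h4, h5, hb, hd, f1, f2, f3, f4, p1, p2, p3, p4, p5, p6, p7, p8, D1, D2, D3, D4, D5, -, -, -⟩ := h
  rcases ZC with q0 | q0 | q0 | q0 | q0 | q0
  · clear * - D1 f3 C1 q0 hd; omega
  · rcases ZF with q1 | q1 | q1 | q1 | q1 | q1 | q1 | q1 | q1 | q1 | q1
    · clear * - D4 D1 D5 q0 q1 D2 D3; omega
    · clear * - D1 f3 q0 p4 q1 p5; omega
    · clear * - hb D1 q1 C1 p7 p6; omega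
    · rcases ZA with q2 | q2 | q2 | q2 | q2 | q2 | q2
      · clear * - D1 D5 q2 q1 D2 D3; omega
      · clear * - D5 D1 p4 q2 q1; omega
      · clear * - D1 D5 q2 q1 p6 p7; omega
      · clear * - D1 f3 q0 D3 p4 q2 D2 C1 q1; omega
      · clear * - q1 D1 f3 p6 q2 h2 p7; omega
      · clear * - D5 D1 q2 q0 f4 p4 C1 D3 q1 D2; omega
      · clear * - D1 q2 q0 ng D2; omega
    · clear * - D1 f3 q0 p5 q1 ng; omega
    · rcases ZA with q2 | q2 | q2 | q2 | q2 | q2 | q2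
      · clear * - ng D1 q1 D3 C1 p7 D5 q2 D2; omega
      · clear * - hb D1 q1 C1 p4 q2 ng; omega
      · clear * - h3 D1 ng q1 p6 q2 D5; omega
      · clear * - D1 q1 q2 D2; omega
      · clear * - f3 D1 q1 p6 q2 C1 p7 D2; omega
      · clear * - D1 ng p4 q1 C1 f4 q2 D2; omega
      · clear * - p1 D1 q2 q1 p6 C1 p7 ng f4 D2; omega
    · clear * - q1 ng; omega
    · clear * - D1 f3 q0 p4 D2 q1; omega
    · clear * - D1 q1 f3 q0 p5 D2; omega
    · rcases ZA with q2 | q2 | q2 | q2 | q2 | q2 | q2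
      · clear * - D1 q1 q0 p7 C1 D3 D2 D5 q2; omega
      · clear * - D5 D1 q1 q0 f4 C1 p4 D3 q2 D2; omega
      · clear * - ng D1 q1 q0 p6 q2 D5 h3 D2; omega
      · clear * - D1 q1 q2 h2 D2; omega
      · clear * - D1 q1 q0 p6 q2 C1 f3 p7 D2; omega
      · clear * - D1 q0 f4 C1 D2 D3 q2 q1; omega
      · clear * - ng D1 q2 q0 D2; omega
    · clear * - D1 q1 q0 ng D2; omega
  · rcases ZA with q1 | q1 | q1 | q1 | q1 | q1 | q1
    · clear * - ng D1 q0 D3 C1 p7 D5 q1 D2; omega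
    · clear * - hb D1 q0 C1 p4 q1 ng; omega
    · clear * - h3 D1 ng q0 p6 q1 D5; omega
    · clear * - D1 q0 q1 D2; omega
    · clear * - f3 D1 q0 p6 q1 C1 p7 D2; omega
    · clear * - D1 ng p4 q0 C1 f4 q1 D2; omega
    · clear * - p1 D1 q1 q0 p6 C1 p7 ng f4 D2; omega
  · rcases ZF with q1 | q1 | q1 | q1 | q1 | q1 | q1 | q1 | q1 | q1 | q1
    · clear * - p2 D1 f4 q0 p5 C1 ng q1 D2; omega
    · clear * - D1 q0 p5 f3 q1; omega
    · clear * - D1 ng p4 f4 C1 q1 q0; omega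
    · clear * - hb D1 q0 p4 C1 q1 ng; omega
    · clear * - h4 D1 ng q0 p5 q1 D5; omega
    · rcases ZA with q2 | q2 | q2 | q2 | q2 | q2 | q2
      · clear * - f4 D1 p4 q0 ng C1 D2 q1 q2; omega
      · clear * - hb D1 p4 ng C1 q1 q2; omega
      · clear * - q0 ng q2; omega
      · clear * - D1 D2 q1 q2; omega
      · clear * - D1 q0 q1 q2 ng D2; omega
      · clear * - D1 q2 p4 ng C1 D2 q1 f4; omega
      · clear * - D1 q2 q0 p4 q1 C1 D2 ng f4; omega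
    · clear * - q1 ng; omega
    · clear * - D1 q0 q1 D2; omega
    · clear * - D1 p5 q0 q1 p2 D2; omega
    · clear * - D1 ng p4 q0 f4 C1 q1 D2; omega
    · clear * - p2 D1 q1 q0 p5 p7 C1 ng f4 D2; omega
  · rcases ZA with q1 | q1 | q1 | q1 | q1 | q1 | q1
    · clear * - D5 D1 q0 p5 C1 D2 q1 ng; omega
    · clear * - hb D1 q0 p4 C1 q1 ng; omega
    · clear * - h5 D1 ng q0 q1 p6 D5; omega
    · clear * - D1 q0 q1 D2; omega
    · clear * - f3 D1 q0 p5 C1 p6 q1 D2; omega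
    · clear * - D1 ng p4 q0 f4 C1 q1 D2; omega
    · clear * - p3 D1 q1 q0 p5 p6 C1 ng f4 D2; omega
  · clear * - q0 ng; omega

lemma condC2a {l a x y1 y2 z3 z4 z5 b d : ℕ} (h : UF l a x y1 y2 z3 z4 z5 b d)
    (hZ : ZF l a x y1 y2 z3 z4 z5) : 2 * l + a + x + y1 ≤ y2 + z3 + z4 + z5 := by
  have C1 := condC1 h hZ
  have C2b := condC2b h hZ
  have ZA := clauseA h hZ.zA
  have ZE5 := clauseE5 h hZ.zE5
  by_contra ng0
  have hq := h.par
  have ng : y2 + z3 + z4 + z5 + 2 ≤ 2 * l + a + x + y1 := by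
    clear * - ng0 hq; omega
  clear hq
  clear ng0 hZ
  obtain ⟨ha, hx, h1, h2, h3, h4, h5, hb, hd, f1, f2, f3, f4, p1, p2, p3, p4, p5, p6, p7, p8, D1, D2, D3, D4, D5, -, -, -⟩ := h
  rcases ZA with q0 | q0 | q0 | q0 | q0 | q0 | q0
  · clear * - ng D1 C2b f4 p5 f3 p7 C1 q0; omega
  · clear * - q0 D1 C2b p5 f4 p7; omega
  · rcases ZE5 with q1 | q1 | q1 | q1 | q1 | q1 | q1 | q1 | q1
    · clear * - ng D1 q1 q0 D4 p6 C1 f3; omega
    · clear * - q1 D1 C2b D4 ng h3 f4 p6 C1 q0; omega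
    · clear * - ng D1 f4 q1 D4 h3 q0 p6 C1 f3; omega
    · clear * - ng D1 C2b D4 p6 C1 q0 q1 f4; omega
    · clear * - q1 D1 D4 q0 f3 h3 ng p6 C1 f4; omega
    · clear * - D2 D1 ng q1 D4 C1 q0; omega
    · clear * - ng D1 C2b D4 q1 f3 h3 q0 p6 C1 f4; omega
    · clear * - ng q1 q0; omega
    · clear * - ng D1 D4 q0 h3 f4 p6 C1 q1; omega
  · clear * - D1 C2b p5 f3 q0 p7 C1 D2; omega
  · clear * - ng q0; omega
  · clear * - D1 C2b f4 p5 f3 q0 p7 C1 D2; omega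
  · rcases ZE5 with q1 | q1 | q1 | q1 | q1 | q1 | q1 | q1 | q1
    · clear * - ng D1 f4 hd q0 C1 q1; omega
    · clear * - ng D1 C2b f4 hd q0 p7 C1 q1; omega
    · clear * - ng D1 f4 q0 p7 D2 C1 q1; omega
    · clear * - ng D1 C2b f4 q0 C1 hd q1 D2; omega
    · clear * - ng D1 f4 q0 p7 D2 p6 C1 q1; omega
    · clear * - ng D1 f4 p5 q0 q1 p7 C1 D2; omega
    · clear * - ng D1 C2b f4 q0 p7 D2 p6 C1 q1; omega
    · clear * - ng D1 C2b f4 p5 q0 q1 p7 C1 D2; omega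
    · clear * - ng D1 f4 q0 p7 D2 C1 q1; omega

lemma condC33 {l a x y1 y2 z3 z4 z5 b d : ℕ} (h : UF l a x y1 y2 z3 z4 z5 b d)
    (hZ : ZF l a x y1 y2 z3 z4 z5) : a + x + z3 ≤ l + 1 := by
  have C1 := condC1 h hZ
  have C2a := condC2a h hZ
  have C2b := condC2b h hZ
  have ZE3 := clauseE3 h hZ.zE3
  by_contra ng0
  have ng : l + 2 ≤ a + x + z3 := by
    clear * - ng0; omega
  clear ng0 hZ
  obtain ⟨ha, hx, h1, h2, h3, h4, h5, hb, hd, f1, f2, f3, f4, p1, p2, p3, p4, p5, p6, p7, p8, D1, D2, D3, D4, D5, -, -, -⟩ := h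
  rcases ZE3 with q0 | q0 | q0 | q0 | q0 | q0 | q0 | q0 | q0
  · clear * - D1 hd C1 f3 q0; omega
  · clear * - f4 D1 D5 C2b D3 C1 q0 ng p5 D4; omega
  · clear * - ng q0; omega
  · clear * - D5 D1 h3 C2b p6 C2a C1 p7 ng q0 f4; omega
  · clear * - p8 q0 C2a ng p7; omega
  · clear * - p8 C2a q0 ng p6; omega
  · clear * - C2b q0 p7 p8 ng; omega
  · clear * - C2b p6 q0 p8 ng; omega
  · clear * - ng D1 p5 C1 q0 p8 D2; omega

lemma condC34 {l a x y1 y2 z3 z4 z5 b d : ℕ} (h : UF l a x y1 y2 z3 z4 z5 b d)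
    (hZ : ZF l a x y1 y2 z3 z4 z5) : a + x + z4 ≤ l + 1 := by
  have C1 := condC1 h hZ
  have C2a := condC2a h hZ
  have C2b := condC2b h hZ
  have ZE4 := clauseE4 h hZ.zE4
  by_contra ng0
  have ng : l + 2 ≤ a + x + z4 := by
    clear * - ng0; omega
  clear ng0 hZ
  obtain ⟨ha, hx, h1, h2, h3, h4, h5, hb, hd, f1, f2, f3, f4, p1, p2, p3, p4, p5, p6, p7, p8, D1, D2, D3, D4, D5, -, -, -⟩ := h
  rcases ZE4 with q0 | q0 | q0 | q0 | q0 | q0 | q0 | q0 | q0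
  · clear * - D1 hd C1 f3 q0; omega
  · clear * - D4 D1 q0 C2b p6 C1 D5 ng D3 f4; omega
  · clear * - ng q0; omega
  · clear * - D5 D1 C1 C2b p5 C2a ng p7 f4 q0 h4; omega
  · clear * - C2a q0 p8 p7 ng; omega
  · clear * - C2a ng p5 q0 p8; omega
  · clear * - q0 C2b p7 ng p8; omega
  · clear * - C2b p5 q0 p8 ng; omega
  · clear * - D1 p6 C1 q0 ng p8 D2; omega

lemma condC35 {l a x y1 y2 z3 z4 z5 b d : ℕ} (h : UF l a x y1 y2 z3 z4 z5 b d)
    (hZ : ZF l a x y1 y2 z3 z4 z5) : a + x + z5 ≤ l + 1 := by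
  have C1 := condC1 h hZ
  have C2a := condC2a h hZ
  have C2b := condC2b h hZ
  have ZE5 := clauseE5 h hZ.zE5
  by_contra ng0
  have ng : l + 2 ≤ a + x + z5 := by
    clear * - ng0; omega
  clear ng0 hZ
  obtain ⟨ha, hx, h1, h2, h3, h4, h5, hb, hd, f1, f2, f3, f4, p1, p2, p3, p4, p5, p6, p7, p8, D1, D2, D3, D4, D5, -, -, -⟩ := h
  rcases ZE5 with q0 | q0 | q0 | q0 | q0 | q0 | q0 | q0 | q0
  · clear * - D1 hd C1 f3 q0; omega
  · clear * - D4 D1 q0 C2b C1 D5 p7 ng D3 f4; omega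
  · clear * - ng q0; omega
  · clear * - f4 D1 h5 C2b p6 C2a ng p5 D5 q0 C1; omega
  · clear * - C2a q0 p8 p6 ng; omega
  · clear * - C2a ng p5 q0 p8; omega
  · clear * - q0 C2b p6 ng p8; omega
  · clear * - C2b p5 q0 p8 ng; omega
  · clear * - D1 C1 q0 p7 ng p8 D2; omega

end Pool.Agent.P.MP_e1a373_ag
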