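import Mathlib

/-!
Conformal block divisors for sl_2 on the moduli space of stable n-pointed rational curves,
recorded by their degrees on all F-curves (Fakhruddin 2012, Propositions 2.7 and 4.2).
Dominant weights of sl_2 are natural numbers, those of level at most l are 0, ..., l.
-/

namespace Pool.Agent.P.MP_e1a373_ag

/-- The level l fusion rule of sl_2: the three-point block with weights a, b, c has rank one
exactly when this holds, and rank zero otherwise. -/
def Fus (l a b c : ℕ) : Prop :=
  (a + b + c) % 2 = 0 ∧ a ≤ b + c ∧ b ≤ a + c ∧ c ≤ a + b ∧ a + b + c ≤ 2 * l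

instance (l a b c : ℕ) : Decidable (Fus l a b c) := by unfold Fus; infer_instance

/-- `rank l L m` is the rank of the level l conformal block bundle with weights the list L
followed by m, computed by factorisation from the fusion rule. -/
def rank (l : ℕ) : List ℕ → ℕ → ℕ
  | [], m => if m = 0 then 1 else 0
  | a :: L, m => ∑ v ∈ Finset.range (l + 1), if Fus l a v m then rank l L v else 0

/-- The degree of the level l conformal block bundle with weights a, b, c, d on the moduli space of
four-pointed curves: the rank times the positive part of (a+b+c+d)/2 - l. -/
def deg4 (l a b c d : ℕ) : ℕ := ((a + b + c + d) / 2 - l) * rank l [b, c, d] a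

/-- F-curves: partitions of the n marked points into four nonempty (labelled) blocks. -/
def FCurve (n : ℕ) : Type := {f : Fin n → Fin 4 // Function.Surjective f}

/-- The weights carried by the marked points of block i. -/
def block {n : ℕ} (lam : Fin n → ℕ) (F : FCurve n) (i : Fin 4) : List ℕ :=
  ((List.finRange n).filter (fun j => F.1 j = i)).map lam

/-- The conformal block divisor D(sl_2, l, lam), as the vector of its degrees on the F-curves. -/
def cbDivisor {n : ℕ} (l : ℕ) (lam : Fin n → ℕ) : FCurve n → ℝ := fun F =>
  ((∑ a ∈ Finset.range (l + 1), ∑ b ∈ Finset.range (l + 1), ∑ c ∈ Finset.range (l + 1),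
    ∑ d ∈ Finset.range (l + 1), deg4 l a b c d *
      (rank l (block lam F 0) a * rank l (block lam F 1) b *
        rank l (block lam F 2) c * rank l (block lam F 3) d) : ℕ) : ℝ)

end Pool.Agent.P.MP_e1a373_ag
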