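import Pool.Agent.P.MP_e1a373_ag.Ineq

/-! The family of divisors approaching the missing boundary of the cone. -/

namespace Pool.Agent.P.MP_e1a373_ag

open Finset

lemma eq_of_rank_one {l a m : ℕ} (ha : a ≤ l) (h : rank l [a] m ≠ 0) : m = a := by
  rw [rank_one l a m ha] at h
  by_contra hne
  simp [hne] at h

lemma fam_ZF (k : ℕ) : ZF (8 * k + 6) 1 (2 * k + 1) (4 * k + 3) (4 * k + 3) (6 * k + 4)
    (6 * k + 5) (6 * k + 5) := by
  refine ⟨?_, ?_, ?_, ?_, ?_, ?_, ?_⟩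
  all_goals
    by_contra h
    obtain ⟨b, c, d, hb, hc, hd, ⟨k1, -⟩, r1, r2, r3⟩ := (Q_ne _ _ _ _ _ (by omega)).1 h
    clear h
  · have f1 := ((rank_two_ne _ _ _ _ (by omega)).1 r1).2.2.2.1
    have f2 := ((rank_two_ne _ _ _ _ (by omega)).1 r2).2.2.2.2
    have f3 := ((rank_two_ne _ _ _ _ (by omega)).1 r3).2.2.2.2
    omega
  · have f2 := eq_of_rank_one (by omega) r2
    have f3 := eq_of_rank_one (by omega) r3
    omega
  · have f1 := eq_of_rank_one (by omega) r1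
    have f3 := eq_of_rank_one (by omega) r3
    omega
  · have f1 := eq_of_rank_one (by omega) r1
    have f3 := eq_of_rank_one (by omega) r3
    omega
  · have f1 := eq_of_rank_one (by omega) r1
    have f3 := eq_of_rank_one (by omega) r3
    omega
  · have f1 := eq_of_rank_one (by omega) r1
    have f3 := eq_of_rank_one (by omega) r3
    omega
  · have f1 := ((rank_two_ne _ _ _ _ (by omega)).1 r1).2.2.2.1
    have f2 := ((rank_two_ne _ _ _ _ (by omega)).1 r2).2.2.2.2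
    have f3 := ((rank_two_ne _ _ _ _ (by omega)).1 r3).2.2.2.2
    omega

lemma sum_odd (k : ℕ) : ∑ j ∈ range (k + 1), (2 * j + 1) = (k + 1) * (k + 1) := by
  induction k with
  | zero => simp
  | succ k ih => rw [Finset.sum_range_succ, ih]; ring

lemma sum_even (k : ℕ) : ∑ j ∈ range (k + 1), 2 * j = k * (k + 1) := by
  induction k with
  | zero => simp
  | succ k ih => rw [Finset.sum_range_succ, ih]; ring

lemma fam_U (k : ℕ) : (k + 1) * (k + 1) ≤ Q (8 * k + 6) 1 [4 * k + 3, 2 * k + 1] [4 * k + 3]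
    [6 * k + 4, 6 * k + 5, 6 * k + 5] := by
  rw [Q_single _ _ _ _ _ (by omega), ← sum_odd]
  refine le_trans ?_ (sum_le_of_inj (S := range (k + 1))
    (fun j => (4 * k + 4 + 2 * j, 8 * k + 6 - 2 * j)) _ ?_ ?_)
  · apply Finset.sum_le_sum
    intro j hj
    have hj : j ≤ k := Nat.lt_succ_iff.1 (Finset.mem_range.1 hj)
    obtain ⟨d, hd⟩ : ∃ d, d + 2 * j = 8 * k + 6 := ⟨8 * k + 6 - 2 * j, by omega⟩
    have hd' : 8 * k + 6 - 2 * j = d := by omega
    simp only [hd']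
    clear hd'
    rw [deg4_eq _ _ _ _ _ 1 (by omega)]
    have g1 : 1 ≤ rank (8 * k + 6) [4 * k + 4 + 2 * j, 4 * k + 3, d] 1 := by
      apply le_rank_sym <;> omega
    have g2 : 1 ≤ rank (8 * k + 6) [4 * k + 3, 2 * k + 1] (4 * k + 4 + 2 * j) := by
      apply Nat.pos_of_ne_zero
      rw [rank_two_ne _ _ _ _ (by omega)]
      unfold Fus
      omega
    have g3 : 2 * j + 1 ≤ rank (8 * k + 6) [6 * k + 4, 6 * k + 5, 6 * k + 5] d := by
      apply le_rank_sym <;> omega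
    calc 2 * j + 1 = 1 * 1 * (1 * (2 * j + 1)) := by ring
      _ ≤ _ := by gcongr
  · intro j hj
    have hj : j ≤ k := Nat.lt_succ_iff.1 (Finset.mem_range.1 hj)
    simp only [Finset.mem_product, Finset.mem_range]
    omega
  · intro p _ q _ h
    simp only [Prod.mk.injEq] at h
    omega

lemma W_le (l x y1 y2 z zi zj N : ℕ) (hl : 1 ≤ l) (hx : x ≤ l) (h1 : y1 ≤ l) (h2 : y2 ≤ l)
    (hz : z ≤ l) (hj : zj ≤ l) (hp : (y1 + y2 + x + l + 1) % 2 = 0)
    (hN : l + z ≤ 2 * N + zi + zj) :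
    Q l 1 [y1, y2, x] [z] [zi, zj] ≤ N * (N + 1) := by
  rw [Q_single _ _ _ _ _ hz, ← sum_even, ← Finset.sum_filter_ne_zero]
  set S := (range (l + 1) ×ˢ range (l + 1)).filter (fun p : ℕ × ℕ =>
    deg4 l 1 p.1 z p.2 * (rank l [y1, y2, x] p.1 * rank l [zi, zj] p.2) ≠ 0) with hS
  have key : ∀ p ∈ S, p.1 ≤ l ∧ p.1 + z + p.2 = 2 * l + 1 ∧ (p.1 + l + 1) % 2 = 0 ∧
      zi + zj + p.2 ≤ 2 * l ∧
      deg4 l 1 p.1 z p.2 * (rank l [y1, y2, x] p.1 * rank l [zi, zj] p.2) + p.1 ≤ l + 1 := by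
    rintro ⟨b, d⟩ hp'
    obtain ⟨hp1, hp2⟩ := Finset.mem_filter.1 hp'
    obtain ⟨hb, hd⟩ := Finset.mem_product.1 hp1
    have hb : b ≤ l := Nat.lt_succ_iff.1 (Finset.mem_range.1 hb)
    have hd : d ≤ l := Nat.lt_succ_iff.1 (Finset.mem_range.1 hd)
    have h' := mul_ne_zero_iff.1 hp2
    have h'' := mul_ne_zero_iff.1 h'.2
    obtain ⟨k1, k2⟩ := (deg4_ne l 1 b z d hl hb hz hd).1 h'.1
    have k3 := (rank_three_ne l b z d 1 hb hz hd hl).2 k2
    have k4 := (rank_three_bounds l b z d 1 hb hz hd hl k3).2.2.2.2.2.1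
    have k5 := k2.1
    have k6 := k2.2.2.2.2.2.2.2.2
    have f := ((rank_two_ne l zi zj d hj).1 h''.2).2.2.2.2
    have g := ((rank_three_ne l y1 y2 x b h1 h2 hx hb).1 h''.1).1
    have g' := (rank_three_bounds l y1 y2 x b h1 h2 hx hb h''.1).1
    have e : b + z + d = 2 * l + 1 := by
      clear * - k1 k5 k6; omega
    refine ⟨hb, e, by clear * - g hp; omega, f, ?_⟩
    show deg4 l 1 b z d * (rank l [y1, y2, x] b * rank l [zi, zj] d) + b ≤ l + 1
    rw [deg4_eq l 1 b z d 1 (by clear * - e; omega)]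
    have g1 : rank l [b, z, d] 1 ≤ 1 := by
      clear * - e k4; omega
    have g2 := rank_two_le l zi zj d hj
    have g3 : 1 * rank l [b, z, d] 1 * (rank l [y1, y2, x] b * rank l [zi, zj] d) ≤
        1 * 1 * (rank l [y1, y2, x] b * 1) := by gcongr
    clear * - g3 g'
    omega
  refine le_trans ?_ (sum_le_of_inj (S := S) (fun p => (l + 1 - p.1) / 2) (fun j => 2 * j) ?_ ?_)
  · apply Finset.sum_le_sum
    intro p hp'
    obtain ⟨k1, -, k3, -, k5⟩ := key p hp'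
    clear * - k1 k3 k5
    omega
  · intro p hp'
    obtain ⟨k1, k2, k3, k4, -⟩ := key p hp'
    rw [Finset.mem_range]
    clear * - k1 k2 k3 k4 hN
    omega
  · intro p hp' q hq' h
    obtain ⟨k1, k2, k3, -, -⟩ := key p hp'
    obtain ⟨j1, j2, j3, -, -⟩ := key q hq'
    ext <;> (clear * - k1 k2 k3 j1 j2 j3 h; omega)

lemma fam_W3 (k : ℕ) : Q (8 * k + 6) 1 [4 * k + 3, 4 * k + 3, 2 * k + 1] [6 * k + 4]
    [6 * k + 5, 6 * k + 5] ≤ k * (k + 1) := by
  apply W_le <;> omega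

lemma fam_W4 (k : ℕ) : Q (8 * k + 6) 1 [4 * k + 3, 4 * k + 3, 2 * k + 1] [6 * k + 5]
    [6 * k + 4, 6 * k + 5] ≤ (k + 1) * (k + 1 + 1) := by
  apply W_le <;> omega

end Pool.Agent.P.MP_e1a373_ag
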