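import Pool.Agent.P.MP_e1a373_ag.Family

/-! Passing from seven to n marked points. -/

namespace Pool.Agent.P.MP_e1a373_ag

open Finset

/-- the F-curve whose first six points are distributed according to L, all others in block 1 -/
def crv (n : ℕ) (hn : 7 ≤ n) (L : List (Fin 4))
    (h : ∀ i : Fin 4, ∃ j : Fin 7, L.getD j.val 1 = i) : FCurve n :=
  ⟨fun j => L.getD j.val 1, fun i => by
    obtain ⟨j, hj⟩ := h i
    exact ⟨⟨j.val, lt_of_lt_of_le j.2 hn⟩, hj⟩⟩

/-- weights extended by zero -/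
def ext {n : ℕ} (lam : Fin n → ℕ) (j : ℕ) : ℕ := if h : j < n then lam ⟨j, h⟩ else 0

/-- the weights of the points 6, 7, ... -/
def tl {n : ℕ} (lam : Fin n → ℕ) : List ℕ := (List.range (n - 6)).map (fun j => ext lam (6 + j))

lemma ext_le {n l : ℕ} {lam : Fin n → ℕ} (h : ∀ i, lam i ≤ l) (j : ℕ) : ext lam j ≤ l := by
  unfold ext
  split_ifs
  · exact h _
  · exact Nat.zero_le _

lemma block_crv {n : ℕ} (hn : 7 ≤ n) (lam : Fin n → ℕ) (L : List (Fin 4))
    (h : ∀ i : Fin 4, ∃ j : Fin 7, L.getD j.val 1 = i) (hL : L.length = 6) (i : Fin 4) :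
    block lam (crv n hn L h) i =
      ((List.range 6).filter (fun j => L.getD j 1 = i)).map (ext lam) ++
        (if i = 1 then tl lam else []) := by
  have e1 : block lam (crv n hn L h) i =
      ((List.range n).filter (fun j => L.getD j 1 = i)).map (ext lam) := by
    unfold block crv
    rw [← List.map_coe_finRange_eq_range, List.filter_map, List.map_map]
    congr 1
    funext j
    simp [ext]
  rw [e1]
  have e2 : List.range n = List.range 6 ++ (List.range (n - 6)).map (fun j => 6 + j) := by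
    rw [← List.range_add]
    congr 1
    omega
  rw [e2, List.filter_append, List.map_append]
  congr 1
  have e3 : ∀ j, L.getD (6 + j) 1 = 1 := fun j => List.getD_eq_default _ _ (by omega)
  split_ifs with hi
  · subst hi
    rw [List.filter_eq_self.2, List.map_map]
    · rfl
    · intro a ha
      obtain ⟨j, _, rfl⟩ := List.mem_map.1 ha
      simp only [e3, decide_true]
  · rw [List.filter_eq_nil_iff.2]
    · rfl
    · intro a ha
      obtain ⟨j, _, rfl⟩ := List.mem_map.1 ha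
      simp only [e3, decide_eq_true_eq]
      exact fun h => hi h.symm

lemma cb_eq_Q {n : ℕ} (l : ℕ) (lam : Fin n → ℕ) (F : FCurve n) (a : ℕ) (ha : a ≤ l)
    (h0 : block lam F 0 = [a]) :
    cbDivisor l lam F = (Q l a (block lam F 1) (block lam F 2) (block lam F 3) : ℕ) := by
  unfold cbDivisor Q
  congr 1
  rw [h0, Finset.sum_eq_single a]
  · simp only [rank_one l a a ha, if_true, one_mul]
  · intro c _ hne
    simp [rank_one l a c ha, hne]
  · intro h
    exact absurd (Finset.mem_range.2 (by omega)) h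

lemma Q_append (l a : ℕ) (L M L2 L3 : List ℕ) : Q l a (L ++ M) L2 L3 =
    ∑ v ∈ range (l + 1), rank l M v * Q l a (L ++ [v]) L2 L3 := by
  unfold Q
  simp only [Finset.mul_sum]
  conv_rhs => rw [Finset.sum_comm]
  apply Finset.sum_congr rfl
  intro b hb
  conv_rhs => rw [Finset.sum_comm]
  apply Finset.sum_congr rfl
  intro c _
  conv_rhs => rw [Finset.sum_comm]
  apply Finset.sum_congr rfl
  intro d _
  rw [rank_append l L M b (Nat.lt_succ_iff.1 (Finset.mem_range.1 hb)), Finset.sum_mul,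
    Finset.sum_mul, Finset.mul_sum]
  apply Finset.sum_congr rfl
  intro v _
  ring

/-- the strict inequality with a tail of further points glued to the point x -/
lemma main_tail (l a y1 y2 z3 z4 z5 : ℕ) (M : List ℕ) (ha : a ≤ l) (h1 : y1 ≤ l)
    (h2 : y2 ≤ l) (h3 : z3 ≤ l) (h4 : z4 ≤ l) (h5 : z5 ≤ l)
    (zA : Q l a ([y1] ++ M) [y2, z4] [z3, z5] = 0) (zB : Q l a ([z3, z4, z5] ++ M) [y1] [y2] = 0)
    (zC : Q l a ([] ++ M) [y1, z3, z4, z5] [y2] = 0)
    (zE5 : Q l a ([] ++ M) [y1, y2, z3, z4] [z5] = 0)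
    (zE4 : Q l a ([] ++ M) [y1, y2, z3, z5] [z4] = 0)
    (zE3 : Q l a ([] ++ M) [y1, y2, z4, z5] [z3] = 0)
    (zF : Q l a ([y2] ++ M) [y1, z3] [z4, z5] = 0)
    (hU : Q l a ([y1] ++ M) [y2] [z3, z4, z5] ≠ 0) :
    3 * Q l a ([y1] ++ M) [y2] [z3, z4, z5] + 1 ≤ Q l a ([y1, y2] ++ M) [z3] [z4, z5] +
      Q l a ([y1, y2] ++ M) [z4] [z3, z5] + Q l a ([y1, y2] ++ M) [z5] [z3, z4] := by
  rw [Q_append, Finset.sum_eq_zero_iff] at zA zB zC zE5 zE4 zE3 zF
  rw [Q_append] at hU
  rw [Q_append l a [y1], Q_append l a [y1, y2], Q_append l a [y1, y2], Q_append l a [y1, y2],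
    ← Finset.sum_add_distrib, ← Finset.sum_add_distrib, Finset.mul_sum, Nat.succ_le_iff]
  have key : ∀ v ∈ range (l + 1), rank l M v * Q l a ([y1] ++ [v]) [y2] [z3, z4, z5] ≠ 0 →
      3 * (rank l M v * Q l a ([y1] ++ [v]) [y2] [z3, z4, z5]) <
        rank l M v * Q l a ([y1, y2] ++ [v]) [z3] [z4, z5] +
        rank l M v * Q l a ([y1, y2] ++ [v]) [z4] [z3, z5] +
        rank l M v * Q l a ([y1, y2] ++ [v]) [z5] [z3, z4] := by
    intro v hv hne
    obtain ⟨r, hu⟩ := mul_ne_zero_iff.1 hne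
    have hZ : ZF l a v y1 y2 z3 z4 z5 :=
      ⟨(mul_eq_zero.1 (zA v hv)).resolve_left r, (mul_eq_zero.1 (zB v hv)).resolve_left r,
        (mul_eq_zero.1 (zC v hv)).resolve_left r, (mul_eq_zero.1 (zE5 v hv)).resolve_left r,
        (mul_eq_zero.1 (zE4 v hv)).resolve_left r, (mul_eq_zero.1 (zE3 v hv)).resolve_left r,
        (mul_eq_zero.1 (zF v hv)).resolve_left r⟩
    have := main_seven l a v y1 y2 z3 z4 z5 ha (Nat.lt_succ_iff.1 (Finset.mem_range.1 hv)) h1 h2
      h3 h4 h5 hZ hu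
    have h' := Nat.mul_lt_mul_of_pos_left (Nat.lt_of_succ_le this) (Nat.pos_of_ne_zero r)
    rw [← mul_add, ← mul_add, mul_left_comm]
    exact h'
  apply Finset.sum_lt_sum
  · intro v hv
    by_cases hne : rank l M v * Q l a ([y1] ++ [v]) [y2] [z3, z4, z5] = 0
    · rw [hne]; exact Nat.zero_le _
    · exact (key v hv hne).le
  · obtain ⟨v, hv, hne⟩ := Finset.exists_ne_zero_of_sum_ne_zero hU
    exact ⟨v, hv, key v hv hne⟩

lemma rank_zeros (l : ℕ) (Z : List ℕ) (hZ : ∀ y ∈ Z, y = 0) (m : ℕ) :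
    rank l Z m = if m = 0 then 1 else 0 := by
  induction Z generalizing m with
  | nil => rfl
  | cons y Z ih =>
    have hy : y = 0 := hZ y (List.mem_cons_self ..)
    have ih' := ih (fun y hy => hZ y (List.mem_cons_of_mem _ hy))
    subst hy
    rw [← rank_one l 0 m (Nat.zero_le _)]
    simp only [rank, ih']

lemma Q_append_zeros (l a x : ℕ) (L Z L2 L3 : List ℕ) (hx : x ≤ l) (hZ : ∀ y ∈ Z, y = 0) :
    Q l a (L ++ x :: Z) L2 L3 = Q l a (L ++ [x]) L2 L3 := by
  have e : ∀ v, rank l (x :: Z) v = if v = x then 1 else 0 := by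
    intro v
    rw [← rank_one l x v hx]
    simp only [rank, rank_zeros l Z hZ]
  rw [Q_append, Finset.sum_eq_single x]
  · simp [e]
  · intro v _ hne
    simp [e, hne]
  · intro h
    exact absurd (Finset.mem_range.2 (by omega)) h

end Pool.Agent.P.MP_e1a373_ag
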