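import Pool.Agent.P.MP_e1a373_ag.Bounds
import Pool.Agent.P.MP_e1a373_ag.Cond

/-! The strict inequality on the face. -/

namespace Pool.Agent.P.MP_e1a373_ag

open Finset

/-- data of a nonzero term of the degree on the curve U -/
lemma uterm_data (l a x y1 y2 zk zi zj b d : ℕ) (Lz : List ℕ)
    (ha : a ≤ l) (hx : x ≤ l) (h2 : y2 ≤ l) (hb : b ≤ l) (hd : d ≤ l)
    (hLz : ∀ d, d ≤ l → rank l Lz d ≠ 0 →
      rank l Lz d + d ≤ l + 1 ∧ 2 * rank l Lz d + d + zi + zj ≤ 2 * l + zk + 2)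
    (h : deg4 l a b y2 d * (rank l [y1, x] b * rank l Lz d) ≠ 0) :
    ∃ s R, a + b + y2 + d = 2 * l + 2 * s ∧ 1 ≤ s ∧ s ≤ a ∧ b ≤ y1 + x ∧ (y1 + x + b) % 2 = 0 ∧
      1 ≤ R ∧ R + d ≤ l + 1 ∧ 2 * R + d + zi + zj ≤ 2 * l + zk + 2 ∧
      deg4 l a b y2 d * (rank l [y1, x] b * rank l Lz d) ≤ s * (a + 1 - s) * R := by
  have h' := mul_ne_zero_iff.1 h
  have h'' := mul_ne_zero_iff.1 h'.2
  obtain ⟨k1, k2⟩ := (deg4_ne l a b y2 d ha hb h2 hd).1 h'.1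
  have k3 := (rank_three_ne l b y2 d a hb h2 hd ha).2 k2
  have k4 := (rank_three_bounds l b y2 d a hb h2 hd ha k3).2.2.2.2.2.1
  have f := (rank_two_ne l y1 x b hx).1 h''.1
  obtain ⟨z1, z2⟩ := hLz d hd h''.2
  unfold P3 at k2
  unfold Fus at f
  obtain ⟨s, hs⟩ : ∃ s, a + b + y2 + d = 2 * l + 2 * s :=
    ⟨(a + b + y2 + d) / 2 - l, by have := k2.1; clear * - this k1; omega⟩
  have k5 := k2.2.2.2.2.2.2.2.2
  refine ⟨s, rank l Lz d, hs, by clear * - hs k1; omega, by clear * - hs k5; omega, f.2.2.2.1, f.1,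
    Nat.pos_of_ne_zero h''.2, z1, z2, ?_⟩
  rw [deg4_eq l a b y2 d s hs]
  have g1 : rank l [b, y2, d] a ≤ a + 1 - s := by
    clear * - hs k4; omega
  have g2 := rank_two_le l y1 x b hx
  calc s * rank l [b, y2, d] a * (rank l [y1, x] b * rank l Lz d)
      ≤ s * (a + 1 - s) * (1 * rank l Lz d) := by gcongr
    _ = s * (a + 1 - s) * rank l Lz d := by ring

lemma main_gen (l a x y1 y2 zk zi zj : ℕ) (Lz La Lb Lc : List ℕ)
    (ha : a ≤ l) (hx : x ≤ l) (h1 : y1 ≤ l) (h2 : y2 ≤ l) (hk : zk ≤ l) (hi : zi ≤ l)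
    (hj : zj ≤ l) (hq : (a + x + y1 + y2 + zk + zi + zj) % 2 = 0)
    (C1 : a + y1 + y2 ≤ l + 1) (C2a : 2 * l + a + x + y1 ≤ y2 + (zk + zi + zj))
    (C2b : 2 * l + a + x + y2 ≤ y1 + (zk + zi + zj))
    (Ck : a + x + zk ≤ l + 1) (Ci : a + x + zi ≤ l + 1) (Cj : a + x + zj ≤ l + 1)
    (m1 : zk ≤ zi) (m2 : zk ≤ zj) (a0 : 1 ≤ a)
    (hLz : ∀ d, d ≤ l → rank l Lz d ≠ 0 →
      rank l Lz d + d ≤ l + 1 ∧ 2 * rank l Lz d + d + zi + zj ≤ 2 * l + zk + 2)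
    (hLa : ∀ σ, Fus l zi zj σ → 1 ≤ rank l La σ) (hLb : ∀ σ, Fus l zk zj σ → 1 ≤ rank l Lb σ)
    (hLc : ∀ σ, Fus l zk zi σ → 1 ≤ rank l Lc σ) (hU : Q l a [y1, x] [y2] Lz ≠ 0) :
    3 * Q l a [y1, x] [y2] Lz + 1 ≤ Q l a [y1, y2, x] [zk] La + Q l a [y1, y2, x] [zi] Lb +
      Q l a [y1, y2, x] [zj] Lc := by
  rw [Q_single l a y2 _ _ h2] at hU ⊢
  rw [Q_single l a zk _ _ hk, Q_single l a zi _ _ hi, Q_single l a zj _ _ hj]
  set T := range (l + 1) ×ˢ range (l + 1) with hT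
  set u : ℕ × ℕ → ℕ := fun p => deg4 l a p.1 y2 p.2 * (rank l [y1, x] p.1 * rank l Lz p.2)
    with hu
  set wk : ℕ × ℕ → ℕ :=
    fun p => deg4 l a p.1 zk p.2 * (rank l [y1, y2, x] p.1 * rank l La p.2) with hwk
  set wi : ℕ × ℕ → ℕ :=
    fun p => deg4 l a p.1 zi p.2 * (rank l [y1, y2, x] p.1 * rank l Lb p.2) with hwi
  set wj : ℕ × ℕ → ℕ :=
    fun p => deg4 l a p.1 zj p.2 * (rank l [y1, y2, x] p.1 * rank l Lc p.2) with hwj
  obtain ⟨δ, hδ⟩ : ∃ δ, (δ = 0 ∧ a + x + y1 + y2 + zi + zj ≤ 2 * l + zk + 2) ∨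
      δ + 2 * l + zk + 2 = a + x + y1 + y2 + zi + zj := by
    rcases Nat.lt_or_ge (2 * l + zk + 2) (a + x + y1 + y2 + zi + zj) with h | h
    · exact ⟨a + x + y1 + y2 + zi + zj - (2 * l + zk + 2), Or.inr (by clear * - h; omega)⟩
    · exact ⟨0, Or.inl ⟨rfl, h⟩⟩
  have δ2 : δ % 2 = 0 := by
    clear * - hδ hq; omega
  have δi : a + x + y1 + y2 + δ + zk + zj ≤ 2 * l + zi := by
    clear * - hδ hq Cj C1 m1 a0; omega
  have δj : a + x + y1 + y2 + δ + zk + zi ≤ 2 * l + zj := by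
    clear * - hδ hq Ci C1 m2 a0; omega
  have δk : a + x + y1 + y2 + zi + zj ≤ δ + 2 * l + zk + 2 := by
    clear * - hδ; omega
  set S := T.filter (fun p => u p ≠ 0) with hS
  set φk : ℕ × ℕ → ℕ × ℕ := fun p => (p.2 + δ + 2 - a, p.1 + a + y2 - (zk + δ + 2)) with hφk
  set φi : ℕ × ℕ → ℕ × ℕ := fun p => (p.2 - (δ + a), p.1 + a + y2 + δ - zi) with hφi
  set φj : ℕ × ℕ → ℕ × ℕ := fun p => (p.2 - (δ + a), p.1 + a + y2 + δ - zj) with hφj
  have key : ∀ p ∈ S, (φi p ∈ T ∧ φj p ∈ T ∧ (p.2 + δ < l → φk p ∈ T)) ∧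
      (δ + a ≤ p.2 ∧ zi ≤ p.1 + a + y2 + δ ∧ zj ≤ p.1 + a + y2 + δ ∧
        (p.2 + δ < l → zk + δ + 2 ≤ p.1 + a + y2)) ∧
      3 * u p + 1 ≤ (if p.2 + δ < l then wk (φk p) else 0) + wi (φi p) + wj (φj p) := by
    rintro ⟨b, d⟩ hp
    obtain ⟨hp1, hp2⟩ := Finset.mem_filter.1 hp
    obtain ⟨hb, hd⟩ := Finset.mem_product.1 hp1
    have hb : b ≤ l := Nat.lt_succ_iff.1 (Finset.mem_range.1 hb)
    have hd : d ≤ l := Nat.lt_succ_iff.1 (Finset.mem_range.1 hd)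
    obtain ⟨s, R, e1, s1, sa, e2, e3, R1, R2, R3, hle⟩ :=
      uterm_data l a x y1 y2 zk zi zj b d Lz ha hx h2 hb hd hLz hp2
    obtain ⟨e, he⟩ : ∃ e, e + l = a + x + y1 + y2 :=
      ⟨a + x + y1 + y2 - l, by clear * - e1 e2 hd; omega⟩
    obtain ⟨ν, hν⟩ : ∃ ν, ν + d = l := ⟨l - d, by clear * - hd; omega⟩
    have ν1 : ν + 2 * s ≤ e := by
      clear * - e1 e2 he hν; omega
    have ν2 : ν % 2 = e % 2 := by
      clear * - e1 e3 he hν; omega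
    have a1 : δ + a ≤ d := by
      clear * - δi ν1 he hν C2a C2b Ck Ci Cj C1 s1 sa m1 m2; omega
    have a2 : zi ≤ b + a + y2 + δ := by
      clear * - e1 hi hd; omega
    have a3 : zj ≤ b + a + y2 + δ := by
      clear * - e1 hj hd; omega
    have a4 : d + δ < l → zk + δ + 2 ≤ b + a + y2 := by
      intro h
      clear * - e1 hk s1 h; omega
    obtain ⟨r, r1, r2, r3⟩ : ∃ r, r ≤ ν + 2 + δ ∧ r ≤ e ∧ (r = ν + 2 + δ ∨ r = e) :=
      ⟨min (ν + 2 + δ) e, by clear * -; omega⟩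
    obtain ⟨b1, b2, b3⟩ := wterm_ge l a x y1 y2 zi zk zj (d - (δ + a)) (b + a + y2 + δ - zi) s
      (ν + 2 + δ) e r Lb ha hx h1 h2 hi hk hj (by clear * - hq; omega) he
      (by clear * - ν2 δ2; omega) C1 (by clear * - C2a; omega) (by clear * - C2b; omega) Ci Ck Cj
      (by clear * - a1 hν; omega) (by clear * - a2 e1 hν; omega) s1 sa (by clear * -; omega)
      (by clear * - a2 δi e2; omega) (by clear * - m2; omega)
      (by clear * - a2 e1 hν R1 R3 s1; omega) r1 r2 hLb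
    obtain ⟨c1, c2, c3⟩ := wterm_ge l a x y1 y2 zj zk zi (d - (δ + a)) (b + a + y2 + δ - zj) s
      (ν + 2 + δ) e r Lc ha hx h1 h2 hj hk hi (by clear * - hq; omega) he
      (by clear * - ν2 δ2; omega) C1 (by clear * - C2a; omega) (by clear * - C2b; omega) Cj Ck Ci
      (by clear * - a1 hν; omega) (by clear * - a3 e1 hν; omega) s1 sa (by clear * -; omega)
      (by clear * - a3 δj e2; omega) (by clear * - m1; omega)
      (by clear * - a3 e1 hν R1 R3 s1; omega) r1 r2 hLc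
    have dk : d + δ < l → (d + δ + 2 - a ≤ l ∧ b + a + y2 - (zk + δ + 2) ≤ l ∧
        s * (a + 1 - s) * (ν - δ) ≤ wk (φk (b, d))) := by
      intro h
      have a5 := a4 h
      exact wterm_ge l a x y1 y2 zk zi zj (d + δ + 2 - a) (b + a + y2 - (zk + δ + 2)) s
        (ν - δ) e (ν - δ) La ha hx h1 h2 hk hi hj hq he
        (by clear * - ν2 δ2 h hν; omega) C1 C2a C2b Ck Ci Cj
        (by clear * - a1 hν h; omega) (by clear * - a5 e1 hν h; omega) s1 sa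
        (by clear * - h hν; omega) (by clear * - a5 δk e2; omega)
        (by clear * - a5 e1 h δi he hν ν1 s1 δj m1 m2 Ck Ci Cj C1 C2a C2b; omega)
        (by clear * - a5 e1 h δi he hν ν1 s1 δj m1 m2 Ck Ci Cj C1 C2a C2b; omega)
        le_rfl (by clear * - ν1; omega) hLa
    have mem : ∀ q r : ℕ, q ≤ l → r ≤ l → (q, r) ∈ T := fun q r h h' =>
      Finset.mem_product.2 ⟨Finset.mem_range.2 (Nat.lt_succ_of_le h),
        Finset.mem_range.2 (Nat.lt_succ_of_le h')⟩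
    refine ⟨⟨mem _ _ b1 b2, mem _ _ c1 c2, fun h => mem _ _ (dk h).1 (dk h).2.1⟩,
      ⟨a1, a2, a3, a4⟩, ?_⟩
    have hk3 : s * (a + 1 - s) * (ν - δ) ≤ (if d + δ < l then wk (φk (b, d)) else 0) := by
      split_ifs with h
      · exact (dk h).2.2
      · have : ν - δ = 0 := by
          clear * - h hν; omega
        rw [this]; simp
    have hR : 3 * R + 1 ≤ (ν - δ) + r + r := by
      clear * - hδ R1 R2 R3 he hν ν1 s1 r3
      rcases hδ with hδ | hδ <;> rcases r3 with r3 | r3 <;> omega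
    have hpos : 1 ≤ s * (a + 1 - s) := Nat.mul_pos s1 (by clear * - sa; omega)
    obtain ⟨c, hc⟩ : ∃ c, c = s * (a + 1 - s) := ⟨_, rfl⟩
    rw [← hc] at hle b3 c3 hk3 hpos
    have h3 : c * (3 * R + 1) ≤ c * ((ν - δ) + r + r) := Nat.mul_le_mul_left c hR
    have hle' : u (b, d) ≤ c * R := hle
    have b3' : c * r ≤ wi (φi (b, d)) := b3
    have c3' : c * r ≤ wj (φj (b, d)) := c3
    show 3 * u (b, d) + 1 ≤ (if d + δ < l then wk (φk (b, d)) else 0) + wi (φi (b, d)) +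
      wj (φj (b, d))
    generalize (if d + δ < l then wk (φk (b, d)) else 0) = A at hk3 ⊢
    generalize wi (φi (b, d)) = B at b3' ⊢
    generalize wj (φj (b, d)) = C at c3' ⊢
    generalize u (b, d) = D at hle' ⊢
    generalize ν - δ = n at hk3 h3
    clear * - hk3 b3' c3' hle' h3 hpos
    nlinarith
  have hne : S.Nonempty := by
    obtain ⟨p, hp, hp'⟩ := Finset.exists_ne_zero_of_sum_ne_zero hU
    exact ⟨p, Finset.mem_filter.2 ⟨hp, hp'⟩⟩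
  have e0 : ∑ p ∈ T, u p = ∑ p ∈ S, u p := (Finset.sum_filter_ne_zero T).symm
  have i1 : ∑ p ∈ S, wi (φi p) ≤ ∑ q ∈ T, wi q := by
    apply sum_le_of_inj φi wi (fun p hp => (key p hp).1.1)
    intro p hp q hq' h
    have k1 := (key p hp).2.1
    have k2 := (key q hq').2.1
    simp only [hφi, Prod.mk.injEq] at h
    ext <;> (clear * - k1 k2 h; omega)
  have i2 : ∑ p ∈ S, wj (φj p) ≤ ∑ q ∈ T, wj q := by
    apply sum_le_of_inj φj wj (fun p hp => (key p hp).1.2.1)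
    intro p hp q hq' h
    have k1 := (key p hp).2.1
    have k2 := (key q hq').2.1
    simp only [hφj, Prod.mk.injEq] at h
    ext <;> (clear * - k1 k2 h; omega)
  have i3 : ∑ p ∈ S, (if p.2 + δ < l then wk (φk p) else 0) ≤ ∑ q ∈ T, wk q := by
    rw [← Finset.sum_filter]
    apply sum_le_of_inj φk wk
    · intro p hp
      obtain ⟨hp1, hp2⟩ := Finset.mem_filter.1 hp
      exact (key p hp1).1.2.2 hp2
    · intro p hp q hq' h
      obtain ⟨hp1, hp2⟩ := Finset.mem_filter.1 hp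
      obtain ⟨hq1, hq2⟩ := Finset.mem_filter.1 hq'
      have k1 := (key p hp1).2.1.1
      have k2 := (key q hq1).2.1.1
      have k3 := (key p hp1).2.1.2.2.2 hp2
      have k4 := (key q hq1).2.1.2.2.2 hq2
      simp only [hφk, Prod.mk.injEq] at h
      ext <;> (clear * - k1 k2 k3 k4 h; omega)
  have i4 : ∑ p ∈ S, (3 * u p + 1) ≤ ∑ p ∈ S,
      ((if p.2 + δ < l then wk (φk p) else 0) + wi (φi p) + wj (φj p)) :=
    Finset.sum_le_sum (fun p hp => (key p hp).2.2)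
  rw [Finset.sum_add_distrib, Finset.sum_add_distrib, Finset.sum_add_distrib, ← Finset.mul_sum,
    Finset.sum_const, smul_eq_mul, mul_one] at i4
  have i5 : 1 ≤ S.card := Finset.card_pos.2 hne
  rw [e0]
  exact le_trans (le_trans (Nat.add_le_add_left i5 _) i4)
    (Nat.add_le_add (Nat.add_le_add i3 i1) i2)

lemma UF_of_U (l a x y1 y2 z3 z4 z5 : ℕ) (ha : a ≤ l) (hx : x ≤ l) (h1 : y1 ≤ l) (h2 : y2 ≤ l)
    (h3 : z3 ≤ l) (h4 : z4 ≤ l) (h5 : z5 ≤ l) (hU : Q l a [y1, x] [y2] [z3, z4, z5] ≠ 0) :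
    ∃ b d, UF l a x y1 y2 z3 z4 z5 b d := by
  obtain ⟨b, c, d, hb, hc, hd, ⟨k1, k2⟩, r1, r2, r3⟩ := (Q_ne l a _ _ _ ha).1 hU
  have hc' : c = y2 := by
    rw [rank_one l y2 c h2] at r2
    by_contra h
    simp [h] at r2
  subst hc'
  obtain ⟨f0, f1, f2, f3, f4⟩ := (rank_two_ne l y1 x b hx).1 r1
  obtain ⟨p0, p1, p2, p3, p4, p5, p6, p7, p8⟩ := (rank_three_ne l z3 z4 z5 d h3 h4 h5 hd).1 r3
  obtain ⟨g0, -, -, -, -, g5, g6, g7, g8⟩ := k2
  exact ⟨b, d, ha, hx, h1, h2, h3, h4, h5, hb, hd, f1, f2, f3, f4, p1, p2, p3, p4, p5, p6, p7, p8,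
    k1, g8, by clear * - g5; omega, by clear * - g6; omega, by clear * - g7; omega, f0, p0,
    by clear * - g0; omega⟩

lemma Fus.swap {l a b c : ℕ} (h : Fus l a b c) : Fus l b a c := by
  unfold Fus at h ⊢
  omega

/-- the strict inequality for seven points -/
lemma main_seven (l a x y1 y2 z3 z4 z5 : ℕ) (ha : a ≤ l) (hx : x ≤ l) (h1 : y1 ≤ l)
    (h2 : y2 ≤ l) (h3 : z3 ≤ l) (h4 : z4 ≤ l) (h5 : z5 ≤ l) (hZ : ZF l a x y1 y2 z3 z4 z5)
    (hU : Q l a [y1, x] [y2] [z3, z4, z5] ≠ 0) :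
    3 * Q l a [y1, x] [y2] [z3, z4, z5] + 1 ≤ Q l a [y1, y2, x] [z3] [z4, z5] +
      Q l a [y1, y2, x] [z4] [z3, z5] + Q l a [y1, y2, x] [z5] [z3, z4] := by
  obtain ⟨b, d, h⟩ := UF_of_U l a x y1 y2 z3 z4 z5 ha hx h1 h2 h3 h4 h5 hU
  have C1 := condC1 h hZ
  have C2a := condC2a h hZ
  have C2b := condC2b h hZ
  have C3 := condC33 h hZ
  have C4 := condC34 h hZ
  have C5 := condC35 h hZ
  have hq := h.par
  have a0 : 1 ≤ a := by
    have := h.D1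
    have := h.D2
    omega
  have two : ∀ p q σ, q ≤ l → Fus l p q σ → 1 ≤ rank l [p, q] σ := fun p q σ hq hf =>
    Nat.pos_of_ne_zero ((rank_two_ne l p q σ hq).2 hf)
  have bd := fun d hd => rank_three_bounds l z3 z4 z5 d h3 h4 h5 hd
  have hmin : (z3 ≤ z4 ∧ z3 ≤ z5) ∨ (z4 ≤ z3 ∧ z4 ≤ z5) ∨ (z5 ≤ z3 ∧ z5 ≤ z4) := by
    clear * -; omega
  rcases hmin with hm | hm | hm
  · exact main_gen l a x y1 y2 z3 z4 z5 _ [z4, z5] [z3, z5] [z3, z4] ha hx h1 h2 h3 h4 h5 hq C1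
      (by clear * - C2a; omega) (by clear * - C2b; omega) C3 C4 C5 hm.1 hm.2 a0
      (fun d hd h => ⟨(bd d hd h).1, (bd d hd h).2.2.2.2.1⟩)
      (fun σ => two _ _ σ h5) (fun σ => two _ _ σ h5) (fun σ => two _ _ σ h4) hU
  · have := main_gen l a x y1 y2 z4 z3 z5 _ [z3, z5] [z4, z5] [z3, z4] ha hx h1 h2 h4 h3 h5
      (by clear * - hq; omega) C1
      (by clear * - C2a; omega) (by clear * - C2b; omega) C4 C3 C5 hm.1 hm.2 a0
      (fun d hd h => ⟨(bd d hd h).1, (bd d hd h).2.2.2.1⟩)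
      (fun σ => two _ _ σ h5) (fun σ => two _ _ σ h5) (fun σ hf => two _ _ σ h4 hf.swap) hU
    clear * - this
    omega
  · have := main_gen l a x y1 y2 z5 z3 z4 _ [z3, z4] [z4, z5] [z3, z5] ha hx h1 h2 h5 h3 h4
      (by clear * - hq; omega) C1
      (by clear * - C2a; omega) (by clear * - C2b; omega) C5 C3 C4 hm.1 hm.2 a0
      (fun d hd h => ⟨(bd d hd h).1, (bd d hd h).2.2.1⟩)
      (fun σ => two _ _ σ h4) (fun σ hf => two _ _ σ h5 hf.swap)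
      (fun σ hf => two _ _ σ h5 hf.swap) hU
    clear * - this
    omega

end Pool.Agent.P.MP_e1a373_ag
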