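import Pool.Agent.P.MP_e1a373_ag.Rank

/-! Supports of ranks are intervals; a criterion for a nonzero degree on an F-curve. -/

namespace Pool.Agent.P.MP_e1a373_ag

open Finset

/-- degree on an F-curve whose first block is a single point of weight a -/
def Q (l a : ℕ) (L1 L2 L3 : List ℕ) : ℕ :=
  ∑ b ∈ range (l + 1), ∑ c ∈ range (l + 1), ∑ d ∈ range (l + 1),
    deg4 l a b c d * (rank l L1 b * rank l L2 c * rank l L3 d)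

lemma Q_ne (l a : ℕ) (L1 L2 L3 : List ℕ) (ha : a ≤ l) : Q l a L1 L2 L3 ≠ 0 ↔
    ∃ b c d, b ≤ l ∧ c ≤ l ∧ d ≤ l ∧ (2 * l + 2 ≤ a + b + c + d ∧ P3 l b c d a) ∧
      rank l L1 b ≠ 0 ∧ rank l L2 c ≠ 0 ∧ rank l L3 d ≠ 0 := by
  unfold Q
  simp only [Ne, Finset.sum_eq_zero_iff, not_forall, mem_range, Nat.lt_succ_iff]
  constructor
  · rintro ⟨b, hb, c, hc, d, hd, h⟩
    have h' := mul_ne_zero_iff.1 h
    have h2 := mul_ne_zero_iff.1 h'.2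
    have h3 := mul_ne_zero_iff.1 h2.1
    exact ⟨b, c, d, hb, hc, hd, (deg4_ne l a b c d ha hb hc hd).1 h'.1, h3.1, h3.2, h2.2⟩
  · rintro ⟨b, c, d, hb, hc, hd, h, h1, h2, h3⟩
    exact ⟨b, hb, c, hc, d, hd, mul_ne_zero ((deg4_ne l a b c d ha hb hc hd).2 h)
      (mul_ne_zero (mul_ne_zero h1 h2) h3)⟩

/-- all weights between lo and hi of the right parity have nonzero rank -/
def Itv (l : ℕ) (L : List ℕ) (lo hi : ℕ) : Prop :=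
  lo ≤ hi ∧ hi ≤ l ∧ lo % 2 = hi % 2 ∧ ∀ m, lo ≤ m → m ≤ hi → m % 2 = lo % 2 → rank l L m ≠ 0

lemma exists_pos_step (x y : ℕ) (h1 : x ≤ y) (h2 : x % 2 = y % 2) (h3 : 1 ≤ y) :
    ∃ b, (x ≤ b ∧ b ≤ y ∧ b % 2 = x % 2) ∧ 1 ≤ b ∧ (b = x ∨ (x = 0 ∧ b = 2)) := by
  by_cases h : x = 0
  · exact ⟨2, by omega, by omega, Or.inr ⟨h, rfl⟩⟩
  · exact ⟨x, by omega, by omega, Or.inl rfl⟩

lemma interval_aux (l a x1 y1 x2 y2 x3 y3 : ℕ) (ha : a ≤ l) (ha1 : 1 ≤ a)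
    (h1 : x1 ≤ y1 ∧ y1 ≤ l ∧ x1 % 2 = y1 % 2) (h2 : x2 ≤ y2 ∧ y2 ≤ l ∧ x2 % 2 = y2 % 2)
    (h3 : x3 ≤ y3 ∧ y3 ≤ l ∧ x3 % 2 = y3 % 2) (hp : (a + x1 + x2 + x3) % 2 = 0)
    (hA : 2 * l + 2 ≤ a + y1 + y2 + y3) (hB1 : a + x2 + x3 ≤ 2 * l + y1)
    (hB2 : a + x1 + x3 ≤ 2 * l + y2) (hB3 : a + x1 + x2 ≤ 2 * l + y3)
    (hC : x1 + x2 + x3 ≤ 2 * l + a) (hD1 : 1 ≤ y1) (hD2 : 1 ≤ y2) (hD3 : 1 ≤ y3) :
    ∃ b c d, (x1 ≤ b ∧ b ≤ y1 ∧ b % 2 = x1 % 2) ∧ (x2 ≤ c ∧ c ≤ y2 ∧ c % 2 = x2 % 2) ∧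
      (x3 ≤ d ∧ d ≤ y3 ∧ d % 2 = x3 % 2) ∧ 2 * l + 2 ≤ a + b + c + d ∧
      (b + c + d ≤ 2 * l + a ∧ a + c + d ≤ 2 * l + b ∧ a + b + d ≤ 2 * l + c ∧
        a + b + c ≤ 2 * l + d) := by
  obtain ⟨u1, v1, p1⟩ := h1
  obtain ⟨u2, v2, p2⟩ := h2
  obtain ⟨u3, v3, p3⟩ := h3
  rcases Nat.lt_or_ge (a + x1 + x2 + x3) (2 * l + 2) with hT | hT
  · obtain ⟨b1, ⟨r1, s1, q1⟩, t1, e1⟩ := exists_pos_step x1 y1 u1 p1 hD1
    obtain ⟨c1, ⟨r2, s2, q2⟩, t2, e2⟩ := exists_pos_step x2 y2 u2 p2 hD2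
    obtain ⟨d1, ⟨r3, s3, q3⟩, t3, e3⟩ := exists_pos_step x3 y3 u3 p3 hD3
    rcases Nat.lt_or_ge (2 * l + 2) (a + b1 + c1 + d1) with hT1 | hT1
    · refine ⟨b1, c1, d1, ⟨r1, s1, q1⟩, ⟨r2, s2, q2⟩, ⟨r3, s3, q3⟩, le_of_lt hT1, ?_⟩
      have w : a + x1 + x2 + x3 ≤ 2 * l := by
        clear * - hT hp; omega
      have w' : 2 * l + 4 ≤ a + b1 + c1 + d1 := by
        clear * - hT1 hp q1 q2 q3; omega
      have z1 : b1 ≤ l := le_trans s1 v1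
      have z2 : c1 ≤ l := le_trans s2 v2
      have z3 : d1 ≤ l := le_trans s3 v3
      clear * - w w' e1 e2 e3 ha ha1 z1 z2 z3
      rcases e1 with e1 | e1 <;> rcases e2 with e2 | e2 <;> rcases e3 with e3 | e3 <;>
        refine ⟨by omega, by omega, by omega, by omega⟩
    · clear e1 e2 e3 hB1 hB2 hB3 hC hT hD1 hD2 hD3
      rcases Nat.lt_or_ge (a + y1 + c1 + d1) (2 * l + 2) with k1 | k1
      · rcases Nat.lt_or_ge (a + y1 + y2 + d1) (2 * l + 2) with k2 | k2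
        · obtain ⟨v, e⟩ : ∃ v, a + y1 + y2 + v = 2 * l + 2 :=
            ⟨2 * l + 2 - (a + y1 + y2), by clear * - k2; omega⟩
          have hv : v % 2 = x3 % 2 := by
            clear * - e hp p1 p2; omega
          refine ⟨y1, y2, v, ⟨u1, le_rfl, p1.symm⟩, ⟨u2, le_rfl, p2.symm⟩, ⟨?_, ?_, hv⟩, e.ge, ?_⟩
          all_goals (clear hp p1 p2 p3 q1 q2 q3 hv; omega)
        · obtain ⟨v, e⟩ : ∃ v, a + y1 + v + d1 = 2 * l + 2 :=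
            ⟨2 * l + 2 - (a + y1 + d1), by clear * - k1; omega⟩
          have hv : v % 2 = x2 % 2 := by
            clear * - e hp p1 q3; omega
          refine ⟨y1, v, d1, ⟨u1, le_rfl, p1.symm⟩, ⟨?_, ?_, hv⟩, ⟨r3, s3, q3⟩, e.ge, ?_⟩
          all_goals (clear hp p1 p2 p3 q1 q2 q3 hv; omega)
      · obtain ⟨v, e⟩ : ∃ v, a + v + c1 + d1 = 2 * l + 2 :=
          ⟨2 * l + 2 - (a + c1 + d1), by clear * - hT1; omega⟩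
        have hv : v % 2 = x1 % 2 := by
          clear * - e hp q2 q3; omega
        refine ⟨v, c1, d1, ⟨?_, ?_, hv⟩, ⟨r2, s2, q2⟩, ⟨r3, s3, q3⟩, e.ge, ?_⟩
        all_goals (clear hp p1 p2 p3 q1 q2 q3 hv; omega)
  · rcases Nat.lt_or_ge (2 * l + x1) (a + x2 + x3) with c1 | c1
    · obtain ⟨v, e⟩ : ∃ v, 2 * l + v = a + x2 + x3 :=
        ⟨a + x2 + x3 - 2 * l, by clear * - c1; omega⟩
      have hv : v % 2 = x1 % 2 := by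
        clear * - e hp; omega
      refine ⟨v, x2, x3, ⟨?_, ?_, hv⟩, ⟨le_rfl, u2, rfl⟩, ⟨le_rfl, u3, rfl⟩, ?_, ?_⟩
      all_goals (clear hp p1 p2 p3 hv; omega)
    rcases Nat.lt_or_ge (2 * l + x2) (a + x1 + x3) with c2 | c2
    · obtain ⟨v, e⟩ : ∃ v, 2 * l + v = a + x1 + x3 :=
        ⟨a + x1 + x3 - 2 * l, by clear * - c2; omega⟩
      have hv : v % 2 = x2 % 2 := by
        clear * - e hp; omega
      refine ⟨x1, v, x3, ⟨le_rfl, u1, rfl⟩, ⟨?_, ?_, hv⟩, ⟨le_rfl, u3, rfl⟩, ?_, ?_⟩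
      all_goals (clear hp p1 p2 p3 hv; omega)
    rcases Nat.lt_or_ge (2 * l + x3) (a + x1 + x2) with c3 | c3
    · obtain ⟨v, e⟩ : ∃ v, 2 * l + v = a + x1 + x2 :=
        ⟨a + x1 + x2 - 2 * l, by clear * - c3; omega⟩
      have hv : v % 2 = x3 % 2 := by
        clear * - e hp; omega
      refine ⟨x1, x2, v, ⟨le_rfl, u1, rfl⟩, ⟨le_rfl, u2, rfl⟩, ⟨?_, ?_, hv⟩, ?_, ?_⟩
      all_goals (clear hp p1 p2 p3 hv; omega)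
    exact ⟨x1, x2, x3, ⟨le_rfl, u1, rfl⟩, ⟨le_rfl, u2, rfl⟩, ⟨le_rfl, u3, rfl⟩, hT, hC, c1, c2, c3⟩

lemma Q_ne_of_itv (l a x1 y1 x2 y2 x3 y3 : ℕ) (L1 L2 L3 : List ℕ) (ha : a ≤ l) (ha1 : 1 ≤ a)
    (h1 : Itv l L1 x1 y1) (h2 : Itv l L2 x2 y2) (h3 : Itv l L3 x3 y3)
    (hp : (a + x1 + x2 + x3) % 2 = 0)
    (hA : 2 * l + 1 ≤ a + y1 + y2 + y3) (hB1 : a + x2 + x3 ≤ 2 * l + y1 + 1)
    (hB2 : a + x1 + x3 ≤ 2 * l + y2 + 1) (hB3 : a + x1 + x2 ≤ 2 * l + y3 + 1)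
    (hC : x1 + x2 + x3 ≤ 2 * l + a + 1) (hD1 : 2 ≤ l → 1 ≤ y1) (hD2 : 2 ≤ l → 1 ≤ y2)
    (hD3 : 2 ≤ l → 1 ≤ y3) :
    Q l a L1 L2 L3 ≠ 0 := by
  have b1 := h1.2.1
  have b2 := h2.2.1
  have b3 := h3.2.1
  have e1 := h1.2.2.1
  have e2 := h2.2.2.1
  have e3 := h3.2.2.1
  have hA' : 2 * l + 2 ≤ a + y1 + y2 + y3 := by
    clear * - hA hp e1 e2 e3; omega
  have hB1' : a + x2 + x3 ≤ 2 * l + y1 := by
    clear * - hB1 hp e1; omega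
  have hB2' : a + x1 + x3 ≤ 2 * l + y2 := by
    clear * - hB2 hp e2; omega
  have hB3' : a + x1 + x2 ≤ 2 * l + y3 := by
    clear * - hB3 hp e3; omega
  have hC' : x1 + x2 + x3 ≤ 2 * l + a := by
    clear * - hC hp; omega
  have hD1' : 1 ≤ y1 := by
    clear * - hA' hD1 ha b2 b3; omega
  have hD2' : 1 ≤ y2 := by
    clear * - hA' hD2 ha b1 b3; omega
  have hD3' : 1 ≤ y3 := by
    clear * - hA' hD3 ha b1 b2; omega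
  obtain ⟨b, c, d, k1, k2, k3, k4, k5⟩ := interval_aux l a x1 y1 x2 y2 x3 y3 ha ha1
    ⟨h1.1, b1, e1⟩ ⟨h2.1, b2, e2⟩ ⟨h3.1, b3, e3⟩ hp hA' hB1' hB2' hB3'
    hC' hD1' hD2' hD3'
  rw [Q_ne l a L1 L2 L3 ha]
  have c1 : b ≤ l := le_trans k1.2.1 b1
  have c2 : c ≤ l := le_trans k2.2.1 b2
  have c3 : d ≤ l := le_trans k3.2.1 b3
  refine ⟨b, c, d, c1, c2, c3, ⟨k4, ?_⟩, h1.2.2.2 b k1.1 k1.2.1 k1.2.2,
    h2.2.2.2 c k2.1 k2.2.1 k2.2.2, h3.2.2.2 d k3.1 k3.2.1 k3.2.2⟩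
  unfold P3
  have q1 := k1.2.2
  have q2 := k2.2.2
  have q3 := k3.2.2
  refine ⟨by clear * - hp q1 q2 q3; omega, ?_⟩
  clear * - k4 k5 c1 c2 c3 ha
  refine ⟨?_, ?_, ?_, ?_, ?_, ?_, ?_, ?_⟩ <;> omega

lemma itv_one (l a : ℕ) (ha : a ≤ l) : Itv l [a] a a := by
  refine ⟨le_rfl, ha, rfl, fun m h1 h2 _ => ?_⟩
  rw [rank_one l a m ha, if_pos (by omega)]
  exact one_ne_zero

lemma itv_two (l a b : ℕ) (ha : a ≤ l) (hb : b ≤ l) : ∃ lo hi, Itv l [a, b] lo hi ∧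
    lo % 2 = (a + b) % 2 ∧ (a = lo + b ∨ b = lo + a) ∧ (hi = a + b ∨ hi + a + b = 2 * l) := by
  obtain ⟨lo, h1, h2⟩ : ∃ v, (a ≤ v + b ∧ b ≤ v + a) ∧ (a = v + b ∨ b = v + a) :=
    ⟨max (a - b) (b - a), by omega, by omega⟩
  obtain ⟨hi, h3, h4⟩ : ∃ v, (v ≤ a + b ∧ v + a + b ≤ 2 * l) ∧ (v = a + b ∨ v + a + b = 2 * l) :=
    ⟨min (a + b) (2 * l - (a + b)), by omega, by omega⟩
  refine ⟨lo, hi, ⟨by omega, by omega, by omega, fun m k1 k2 k3 => ?_⟩, by omega, h2, h4⟩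
  rw [rank_two l a b m hb, if_pos]
  · exact one_ne_zero
  · unfold Fus
    refine ⟨?_, ?_, ?_, ?_, ?_⟩ <;> omega

lemma itv_four_lo (l a b c d : ℕ) (ha : a ≤ l) (hb : b ≤ l) (hc : c ≤ l) (hd : d ≤ l) :
    ∃ lo, lo ≤ l ∧ P4 l a b c d lo ∧
    (lo ≤ 1 ∨ a = lo + b + c + d ∨ b = lo + a + c + d ∨ c = lo + a + b + d ∨ d = lo + a + b + c ∨ a + b + c = lo + 2 * l + d ∨ a + b + d = lo + 2 * l + c ∨ a + c + d = lo + 2 * l + b ∨ b + c + d = lo + 2 * l + a) := by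
  unfold P4
  rcases Nat.lt_or_ge (b + c + d) (a) with c0 | c0
  · obtain ⟨v, e⟩ : ∃ v, a = v + b + c + d := ⟨a - (b + c + d), by clear * - c0; omega⟩
    clear * - e c0 ha hb hc hd
    refine ⟨v, by omega, ⟨?_, ?_, ?_, ?_, ?_, ?_, ?_, ?_, ?_, ?_, ?_, ?_, ?_, ?_, ?_, ?_, ?_⟩, Or.inr (Or.inl e)⟩ <;> omega
  rcases Nat.lt_or_ge (a + c + d) (b) with c1 | c1
  · obtain ⟨v, e⟩ : ∃ v, b = v + a + c + d := ⟨b - (a + c + d), by clear * - c1; omega⟩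
    clear * - e c1 ha hb hc hd
    refine ⟨v, by omega, ⟨?_, ?_, ?_, ?_, ?_, ?_, ?_, ?_, ?_, ?_, ?_, ?_, ?_, ?_, ?_, ?_, ?_⟩, Or.inr (Or.inr (Or.inl e))⟩ <;> omega
  rcases Nat.lt_or_ge (a + b + d) (c) with c2 | c2
  · obtain ⟨v, e⟩ : ∃ v, c = v + a + b + d := ⟨c - (a + b + d), by clear * - c2; omega⟩
    clear * - e c2 ha hb hc hd
    refine ⟨v, by omega, ⟨?_, ?_, ?_, ?_, ?_, ?_, ?_, ?_, ?_, ?_, ?_, ?_, ?_, ?_, ?_, ?_, ?_⟩, Or.inr (Or.inr (Or.inr (Or.inl e)))⟩ <;> omega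
  rcases Nat.lt_or_ge (a + b + c) (d) with c3 | c3
  · obtain ⟨v, e⟩ : ∃ v, d = v + a + b + c := ⟨d - (a + b + c), by clear * - c3; omega⟩
    clear * - e c3 ha hb hc hd
    refine ⟨v, by omega, ⟨?_, ?_, ?_, ?_, ?_, ?_, ?_, ?_, ?_, ?_, ?_, ?_, ?_, ?_, ?_, ?_, ?_⟩, Or.inr (Or.inr (Or.inr (Or.inr (Or.inl e))))⟩ <;> omega
  rcases Nat.lt_or_ge (2 * l + d) (a + b + c) with c4 | c4
  · obtain ⟨v, e⟩ : ∃ v, a + b + c = v + 2 * l + d := ⟨a + b + c - (2 * l + d), by clear * - c4; omega⟩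
    clear * - e c4 ha hb hc hd
    refine ⟨v, by omega, ⟨?_, ?_, ?_, ?_, ?_, ?_, ?_, ?_, ?_, ?_, ?_, ?_, ?_, ?_, ?_, ?_, ?_⟩, Or.inr (Or.inr (Or.inr (Or.inr (Or.inr (Or.inl e)))))⟩ <;> omega
  rcases Nat.lt_or_ge (2 * l + c) (a + b + d) with c5 | c5
  · obtain ⟨v, e⟩ : ∃ v, a + b + d = v + 2 * l + c := ⟨a + b + d - (2 * l + c), by clear * - c5; omega⟩
    clear * - e c5 ha hb hc hd
    refine ⟨v, by omega, ⟨?_, ?_, ?_, ?_, ?_, ?_, ?_, ?_, ?_, ?_, ?_, ?_, ?_, ?_, ?_, ?_, ?_⟩, Or.inr (Or.inr (Or.inr (Or.inr (Or.inr (Or.inr (Or.inl e))))))⟩ <;> omega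
  rcases Nat.lt_or_ge (2 * l + b) (a + c + d) with c6 | c6
  · obtain ⟨v, e⟩ : ∃ v, a + c + d = v + 2 * l + b := ⟨a + c + d - (2 * l + b), by clear * - c6; omega⟩
    clear * - e c6 ha hb hc hd
    refine ⟨v, by omega, ⟨?_, ?_, ?_, ?_, ?_, ?_, ?_, ?_, ?_, ?_, ?_, ?_, ?_, ?_, ?_, ?_, ?_⟩, Or.inr (Or.inr (Or.inr (Or.inr (Or.inr (Or.inr (Or.inr (Or.inl e)))))))⟩ <;> omega
  rcases Nat.lt_or_ge (2 * l + a) (b + c + d) with c7 | c7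
  · obtain ⟨v, e⟩ : ∃ v, b + c + d = v + 2 * l + a := ⟨b + c + d - (2 * l + a), by clear * - c7; omega⟩
    clear * - e c7 ha hb hc hd
    refine ⟨v, by omega, ⟨?_, ?_, ?_, ?_, ?_, ?_, ?_, ?_, ?_, ?_, ?_, ?_, ?_, ?_, ?_, ?_, ?_⟩, Or.inr (Or.inr (Or.inr (Or.inr (Or.inr (Or.inr (Or.inr (Or.inr (e))))))))⟩ <;> omega
  obtain ⟨v, e, e'⟩ : ∃ v, v ≤ 1 ∧ (a + b + c + d + v) % 2 = 0 := ⟨(a + b + c + d) % 2, by clear * -; omega, by clear * -; omega⟩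
  refine ⟨v, by omega, ⟨?_, ?_, ?_, ?_, ?_, ?_, ?_, ?_, ?_, ?_, ?_, ?_, ?_, ?_, ?_, ?_, ?_⟩, Or.inl e⟩ <;> omega

lemma itv_four_hi (l a b c d : ℕ) (ha : a ≤ l) (hb : b ≤ l) (hc : c ≤ l) (hd : d ≤ l) :
    ∃ hi, hi ≤ l ∧ P4 l a b c d hi ∧
    (l ≤ hi + 1 ∨ hi = a + b + c + d ∨ hi + a + b = 2 * l + c + d ∨ hi + a + c = 2 * l + b + d ∨ hi + a + d = 2 * l + b + c ∨ hi + b + c = 2 * l + a + d ∨ hi + b + d = 2 * l + a + c ∨ hi + c + d = 2 * l + a + b ∨ hi + a + b + c + d = 4 * l) := by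
  unfold P4
  rcases Nat.lt_or_ge (a + b + c + d) (l) with c0 | c0
  · obtain ⟨v, e⟩ : ∃ v, v = a + b + c + d := ⟨a + b + c + d - (0), by clear * - ha hb hc hd; omega⟩
    clear * - e c0 ha hb hc hd
    refine ⟨v, by omega, ⟨?_, ?_, ?_, ?_, ?_, ?_, ?_, ?_, ?_, ?_, ?_, ?_, ?_, ?_, ?_, ?_, ?_⟩, Or.inr (Or.inl e)⟩ <;> omega
  rcases Nat.lt_or_ge (2 * l + c + d) (l + a + b) with c1 | c1
  · obtain ⟨v, e⟩ : ∃ v, v + a + b = 2 * l + c + d := ⟨2 * l + c + d - (a + b), by clear * - ha hb hc hd; omega⟩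
    clear * - e c1 ha hb hc hd
    refine ⟨v, by omega, ⟨?_, ?_, ?_, ?_, ?_, ?_, ?_, ?_, ?_, ?_, ?_, ?_, ?_, ?_, ?_, ?_, ?_⟩, Or.inr (Or.inr (Or.inl e))⟩ <;> omega
  rcases Nat.lt_or_ge (2 * l + b + d) (l + a + c) with c2 | c2
  · obtain ⟨v, e⟩ : ∃ v, v + a + c = 2 * l + b + d := ⟨2 * l + b + d - (a + c), by clear * - ha hb hc hd; omega⟩
    clear * - e c2 ha hb hc hd
    refine ⟨v, by omega, ⟨?_, ?_, ?_, ?_, ?_, ?_, ?_, ?_, ?_, ?_, ?_, ?_, ?_, ?_, ?_, ?_, ?_⟩, Or.inr (Or.inr (Or.inr (Or.inl e)))⟩ <;> omega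
  rcases Nat.lt_or_ge (2 * l + b + c) (l + a + d) with c3 | c3
  · obtain ⟨v, e⟩ : ∃ v, v + a + d = 2 * l + b + c := ⟨2 * l + b + c - (a + d), by clear * - ha hb hc hd; omega⟩
    clear * - e c3 ha hb hc hd
    refine ⟨v, by omega, ⟨?_, ?_, ?_, ?_, ?_, ?_, ?_, ?_, ?_, ?_, ?_, ?_, ?_, ?_, ?_, ?_, ?_⟩, Or.inr (Or.inr (Or.inr (Or.inr (Or.inl e))))⟩ <;> omega
  rcases Nat.lt_or_ge (2 * l + a + d) (l + b + c) with c4 | c4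
  · obtain ⟨v, e⟩ : ∃ v, v + b + c = 2 * l + a + d := ⟨2 * l + a + d - (b + c), by clear * - ha hb hc hd; omega⟩
    clear * - e c4 ha hb hc hd
    refine ⟨v, by omega, ⟨?_, ?_, ?_, ?_, ?_, ?_, ?_, ?_, ?_, ?_, ?_, ?_, ?_, ?_, ?_, ?_, ?_⟩, Or.inr (Or.inr (Or.inr (Or.inr (Or.inr (Or.inl e)))))⟩ <;> omega
  rcases Nat.lt_or_ge (2 * l + a + c) (l + b + d) with c5 | c5
  · obtain ⟨v, e⟩ : ∃ v, v + b + d = 2 * l + a + c := ⟨2 * l + a + c - (b + d), by clear * - ha hb hc hd; omega⟩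
    clear * - e c5 ha hb hc hd
    refine ⟨v, by omega, ⟨?_, ?_, ?_, ?_, ?_, ?_, ?_, ?_, ?_, ?_, ?_, ?_, ?_, ?_, ?_, ?_, ?_⟩, Or.inr (Or.inr (Or.inr (Or.inr (Or.inr (Or.inr (Or.inl e))))))⟩ <;> omega
  rcases Nat.lt_or_ge (2 * l + a + b) (l + c + d) with c6 | c6
  · obtain ⟨v, e⟩ : ∃ v, v + c + d = 2 * l + a + b := ⟨2 * l + a + b - (c + d), by clear * - ha hb hc hd; omega⟩
    clear * - e c6 ha hb hc hd
    refine ⟨v, by omega, ⟨?_, ?_, ?_, ?_, ?_, ?_, ?_, ?_, ?_, ?_, ?_, ?_, ?_, ?_, ?_, ?_, ?_⟩, Or.inr (Or.inr (Or.inr (Or.inr (Or.inr (Or.inr (Or.inr (Or.inl e)))))))⟩ <;> omega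
  rcases Nat.lt_or_ge (4 * l) (l + a + b + c + d) with c7 | c7
  · obtain ⟨v, e⟩ : ∃ v, v + a + b + c + d = 4 * l := ⟨4 * l - (a + b + c + d), by clear * - ha hb hc hd; omega⟩
    clear * - e c7 ha hb hc hd
    refine ⟨v, by omega, ⟨?_, ?_, ?_, ?_, ?_, ?_, ?_, ?_, ?_, ?_, ?_, ?_, ?_, ?_, ?_, ?_, ?_⟩, Or.inr (Or.inr (Or.inr (Or.inr (Or.inr (Or.inr (Or.inr (Or.inr (e))))))))⟩ <;> omega
  obtain ⟨v, e, e', e''⟩ : ∃ v, l ≤ v + 1 ∧ v ≤ l ∧ (a + b + c + d + v) % 2 = 0 :=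
    ⟨l - (l + a + b + c + d) % 2, by clear * -; omega, by clear * -; omega, by clear * - ha hb hc hd; omega⟩
  refine ⟨v, e', ⟨?_, ?_, ?_, ?_, ?_, ?_, ?_, ?_, ?_, ?_, ?_, ?_, ?_, ?_, ?_, ?_, ?_⟩, Or.inl e⟩ <;> omega

lemma itv_four (l a b c d : ℕ) (ha : a ≤ l) (hb : b ≤ l) (hc : c ≤ l) (hd : d ≤ l) :
    ∃ lo hi, Itv l [a, b, c, d] lo hi ∧
    lo % 2 = (a + b + c + d) % 2 ∧
    (lo ≤ 1 ∨ a = lo + b + c + d ∨ b = lo + a + c + d ∨ c = lo + a + b + d ∨ d = lo + a + b + c ∨ a + b + c = lo + 2 * l + d ∨ a + b + d = lo + 2 * l + c ∨ a + c + d = lo + 2 * l + b ∨ b + c + d = lo + 2 * l + a) ∧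
    (l ≤ hi + 1 ∨ hi = a + b + c + d ∨ hi + a + b = 2 * l + c + d ∨ hi + a + c = 2 * l + b + d ∨ hi + a + d = 2 * l + b + c ∨ hi + b + c = 2 * l + a + d ∨ hi + b + d = 2 * l + a + c ∨ hi + c + d = 2 * l + a + b ∨ hi + a + b + c + d = 4 * l) := by
  obtain ⟨lo, h1, h2, h3⟩ := itv_four_lo l a b c d ha hb hc hd
  obtain ⟨hi, h4, h5, h6⟩ := itv_four_hi l a b c d ha hb hc hd
  unfold P4 at h2 h5
  obtain ⟨s0, s1, s2, s3, s4, s5, s6, s7, s8, s9, s10, s11, s12, s13, s14, s15, s16⟩ := h2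
  obtain ⟨t0, t1, t2, t3, t4, t5, t6, t7, t8, t9, t10, t11, t12, t13, t14, t15, t16⟩ := h5
  have hp : lo % 2 = hi % 2 := by
    clear * - s0 t0; omega
  have hle : lo ≤ hi := by
    clear h6
    rcases h3 with h3 | h3 | h3 | h3 | h3 | h3 | h3 | h3 | h3
    · clear * - h3 hp; omega
    · clear * - h3 t1; omega
    · clear * - h3 t2; omega
    · clear * - h3 t3; omega
    · clear * - h3 t4; omega
    · clear * - h3 t6; omega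
    · clear * - h3 t7; omega
    · clear * - h3 t8; omega
    · clear * - h3 t9; omega
  refine ⟨lo, hi, ⟨hle, h4, hp, fun m k1 k2 k3 => ?_⟩, by clear * - s0; omega, h3, h6⟩
  rw [rank_four_ne l a b c d m ha hb hc hd (le_trans k2 h4)]
  unfold P4
  refine ⟨?_, ?_, ?_, ?_, ?_, ?_, ?_, ?_, ?_, ?_, ?_, ?_, ?_, ?_, ?_, ?_, ?_⟩
  · clear * - s0 k3; omega
  · clear * - s1 k1; omega
  · clear * - s2 k1; omega
  · clear * - s3 k1; omega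
  · clear * - s4 k1; omega
  · clear * - t5 k2; omega
  · clear * - s6 k1; omega
  · clear * - s7 k1; omega
  · clear * - s8 k1; omega
  · clear * - s9 k1; omega
  · clear * - t10 k2; omega
  · clear * - t11 k2; omega
  · clear * - t12 k2; omega
  · clear * - t13 k2; omega
  · clear * - t14 k2; omega
  · clear * - t15 k2; omega
  · clear * - t16 k2; omega

end Pool.Agent.P.MP_e1a373_ag
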